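import Pool.Agent.Lib.MP_9a7843_ag_FL.Common

/-!
# MP_9a7843_ag, block FL: the field lemma for `M_G`
-/

noncomputable section

open Pool.Agent.MP9a7843

namespace MP9a7843

open Polynomial FL

universe u

lemma FL.polyOf_map {R S : Type*} [CommRing R] [CommRing S] (f : R →+* S) {n : ℕ}
    (a : Fin (n + 1) → R) : (polyOf a).map f = polyOf fun j => f (a j) := by
  simp [polyOf, Polynomial.map_sum]

/-- EXPORT: field lemma for `M_G`. -/
theorem expFieldG (k : Type u) [Field k] [IsAlgClosed k] [CharZero k] : ExpFieldG k := by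
  intro b n hb hn L _ _ z hL lam r hr hlam
  -- the generic polynomials
  set pu : Fin 10 → (AC k (SigG b n))[X] := fun l => polyOf fun j =>
    acTh k (SigG b n) (Sum.inl (l, j)) with hpu
  set pv : Fin 10 → (AC k (SigG b n))[X] := fun l => polyOf fun j =>
    acTh k (SigG b n) (Sum.inr (Sum.inl (l, j))) with hpv
  set pc : Fin 4 → (AC k (SigG b n))[X] := fun m => polyOf fun j =>
    acTh k (SigG b n) (Sum.inr (Sum.inr (m, j))) with hpc
  have hp : GenPoly k (Sum.elim (fun _ => b) (Sum.elim (fun _ => b) (fun _ => n)))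
      (Sum.elim pu (Sum.elim pv pc)) := by
    have h := genPoly_polyOf k (Sum.elim (fun _ : Fin 10 => b) (Sum.elim (fun _ : Fin 10 => b)
      (fun _ : Fin 4 => n))) (by rintro (s | s | s) <;> simpa) (idxG b n) (idxG_bij b n)
    convert h using 1
    funext s
    rcases s with s | s | s <;> rfl
  set m : Idx → RatFunc (AC k (SigG b n)) := zfun (ratP pu) (ratP pv) (ratP pc) with hm
  have hm2 : ∀ I, algebraMap (AC k (SigG b n))[X] (RatFunc (AC k (SigG b n)))
      ((famG (genTh k (SigG b n)) I).map (algebraMap (CoefField k (SigG b n))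
        (AC k (SigG b n)))) = m I := by
    intro I
    have h1 : (famG (genTh k (SigG b n)) I).map (algebraMap (CoefField k (SigG b n))
        (AC k (SigG b n))) = zfun pu pv pc I := by
      have := map_zfun (mapRingHom (algebraMap (CoefField k (SigG b n)) (AC k (SigG b n))))
        (fun l => polyOf fun j => genTh k (SigG b n) (Sum.inl (l, j)))
        (fun l => polyOf fun j => genTh k (SigG b n) (Sum.inr (Sum.inl (l, j))))
        (fun m => polyOf fun j => genTh k (SigG b n) (Sum.inr (Sum.inr (m, j)))) I
      simp only [coe_mapRingHom, FL.polyOf_map] at this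
      exact this
    rw [h1, map_zfun]
    rfl
  have hlam2 : ∀ I, lam (z I) = r * m I := by
    intro I
    rw [← hm2]
    exact hlam I
  have hratio : ∀ I J, lam (z I / z J) = m I / m J := by
    intro I J
    rw [map_div₀, hlam2, hlam2, mul_div_mul_left _ _ hr]
  have hrat : ratP (Sum.elim pu (Sum.elim pv pc)) =
      Sum.elim (ratP pu) (Sum.elim (ratP pv) (ratP pc)) := by
    funext s
    rcases s with s | s | s <;> rfl
  have hind : AlgebraicIndependent k (Sum.elim (ratP pu) (Sum.elim (ratP pv) (ratP pc))) := by
    rw [← hrat]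
    exact ratP_indep hp
  have hcell : AlgebraicIndependent k (cellCoord m 0 1 0) := by
    have := (indepX _ _ _ hind).1.comp Sum.inl Sum.inl_injective
    exact this
  have hm0 : m (cellIdx 0 1 0) ≠ 0 := by
    intro h0
    apply hcell.ne_zero (Sum.inl ⟨2, by decide⟩)
    simp [cellCoord, cellE, h0]
  have hcc : ∀ s, lam (cellCoord z 0 1 0 s) = cellCoord m 0 1 0 s :=
    map_cellCoord lam z m hratio 0 1 0
  have hz0 : z (cellIdx 0 1 0) ≠ 0 := by
    intro h0
    have := hlam2 (cellIdx 0 1 0)
    rw [h0, map_zero] at this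
    exact mul_ne_zero hr hm0 this.symm
  refine ⟨hz0, ?_, ?_, ?_⟩
  · apply AlgebraicIndependent.of_comp lam
    have : (lam ∘ cellCoord z 0 1 0) = cellCoord m 0 1 0 := by
      funext s
      exact hcc s
    rw [this]
    exact hcell
  · rw [eq_top_iff]
    intro y _
    have h1 : IsAlgebraic (IntermediateField.adjoin k (Set.range (cellCoord m 0 1 0)))
        (lam y) := by
      apply isAlgebraic_map lam {a : L | ∃ i j, a = z i / z j} _ _ y (hL.isAlgebraic y)
      rintro _ ⟨I, J, rfl⟩
      rw [hratio]
      have hE : ∀ I, m I = m (cellIdx 0 1 0) *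
          zfun (cellE m 0 1 0) (cellE' m 0 1 0) (cellG m 0 1 0) I :=
        fun I => zfun_eq_cell _ _ _ hm0 I
      rw [hE I, hE J, mul_div_mul_left _ _ hm0]
      have h01 : (cellE m 0 1 0 0) = 1 := div_self hm0
      have h02 : (cellE' m 0 1 0 1) = 1 := div_self hm0
      have h03 : (cellG m 0 1 0 0) = 1 := div_self hm0
      have h04 : (cellE m 0 1 0 1) = 0 := by
        have : m (cubIdx 0 1 0, (1, 1)) = 0 := by simp [hm, zfun, plu]
        simp [cellE, this]
      have h05 : (cellE' m 0 1 0 0) = 0 := by
        have : m (cubIdx 0 1 0, (0, 0)) = 0 := by simp [hm, zfun, plu]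
        simp [cellE', this]
      have hEm : ∀ l, cellE m 0 1 0 l ∈
          IntermediateField.adjoin k (Set.range (cellCoord m 0 1 0)) := by
        intro l
        by_cases h0 : l = 0
        · rw [h0, h01]; exact one_mem _
        · by_cases h1 : l = 1
          · rw [h1, h04]; exact zero_mem _
          · exact IntermediateField.subset_adjoin k _ ⟨Sum.inl ⟨l, h0, h1⟩, rfl⟩
      have hEm' : ∀ l, cellE' m 0 1 0 l ∈
          IntermediateField.adjoin k (Set.range (cellCoord m 0 1 0)) := by
        intro l
        by_cases h0 : l = 0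
        · rw [h0, h05]; exact zero_mem _
        · by_cases h1 : l = 1
          · rw [h1, h02]; exact one_mem _
          · exact IntermediateField.subset_adjoin k _ ⟨Sum.inr (Sum.inl ⟨l, h0, h1⟩), rfl⟩
      have hGm : ∀ l, cellG m 0 1 0 l ∈
          IntermediateField.adjoin k (Set.range (cellCoord m 0 1 0)) := by
        intro l
        by_cases h0 : l = 0
        · rw [h0, h03]; exact one_mem _
        · exact IntermediateField.subset_adjoin k _ ⟨Sum.inr (Sum.inr ⟨l, h0⟩), rfl⟩
      exact div_mem (zfun_mem _ _ _ _ hEm hEm' hGm I) (zfun_mem _ _ _ _ hEm hEm' hGm J)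
    have h2 := memX _ pu pv pc hp (lam y) h1
    have h3 : IntermediateField.adjoin k (Set.range (cellCoord m 0 1 0)) =
        (IntermediateField.adjoin k (Set.range (cellCoord z 0 1 0))).map lam := by
      rw [IntermediateField.adjoin_map]
      congr 1
      rw [← Set.range_comp]
      congr 1
      funext s
      exact (hcc s).symm
    change lam y ∈ IntermediateField.adjoin k (Set.range (cellCoord m 0 1 0)) at h2
    rw [h3] at h2
    obtain ⟨x, hx, hxy⟩ := h2
    have : x = y := lam.injective hxy
    rw [← this]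
    exact hx
  · intro I
    apply lam.injective
    have hE := zfun_eq_cell (ratP pu) (ratP pv) (ratP pc) hm0 I
    have h1 : lam (zfun (cellE z 0 1 0) (cellE' z 0 1 0) (cellG z 0 1 0) I) =
        zfun (cellE m 0 1 0) (cellE' m 0 1 0) (cellG m 0 1 0) I := by
      have := map_zfun (lam : L →+* RatFunc (AC k (SigG b n))) (cellE z 0 1 0) (cellE' z 0 1 0)
        (cellG z 0 1 0) I
      refine this.trans ?_
      have e1 : (fun l => (lam : L →+* RatFunc (AC k (SigG b n))) (cellE z 0 1 0 l)) =
          cellE m 0 1 0 := by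
        funext l
        exact hratio _ _
      have e2 : (fun l => (lam : L →+* RatFunc (AC k (SigG b n))) (cellE' z 0 1 0 l)) =
          cellE' m 0 1 0 := by
        funext l
        exact hratio _ _
      have e3 : (fun l => (lam : L →+* RatFunc (AC k (SigG b n))) (cellG z 0 1 0 l)) =
          cellG m 0 1 0 := by
        funext l
        exact hratio _ _
      rw [e1, e2, e3]
    have hE2 : m I = m (cellIdx 0 1 0) *
        zfun (cellE m 0 1 0) (cellE' m 0 1 0) (cellG m 0 1 0) I := hE
    change lam (z I) = lam (z (cellIdx 0 1 0) *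
      zfun (cellE z 0 1 0) (cellE' z 0 1 0) (cellG z 0 1 0) I)
    rw [map_mul, h1, hlam2, hlam2, mul_assoc, ← hE2]

end MP9a7843
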