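import Pool.Agent.Lib.MP_9a7843_ag_FL.Common

/-!
# MP_9a7843_ag, block FL: the field lemma for `M_H`
-/

noncomputable section

open Pool.Agent.MP9a7843

namespace MP9a7843

open Polynomial FL

universe u

private lemma polyOf_map' {R S : Type*} [CommRing R] [CommRing S] (f : R →+* S) {n : ℕ}
    (a : Fin (n + 1) → R) : (polyOf a).map f = polyOf fun j => f (a j) := by
  simp [polyOf, Polynomial.map_sum]

/-- Scaling of the normal form. -/
private lemma zfun_scale {R : Type*} [Field R] (l m : R) (hl : l ≠ 0) (u v : Fin 10 → R) (a : R)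
    (I : Idx) : zfun (fun i => l * u i) (fun i => m * v i) ![a * (m ^ 2 / l ^ 2), 0, 1, 0] I =
      l ^ 2 * m ^ 3 * zfun u v ![a, 0, 1, 0] I := by
  simp only [zfun, cub, plu, Matrix.cons_val_zero, Matrix.cons_val_one, Matrix.cons_val]
  field_simp
  ring

/-- `zT` in the main cell. -/
private lemma zT_ne (k : Type u) [Field k] : zT k (cellIdx 0 1 0) ≠ 0 := by
  have h : zT k (cellIdx 0 1 0) = algebraMap (MvPolynomial (TVar 0 1) k) (KT k)
      (MvPolynomial.X (Sum.inr (Sum.inr 1)) + (MvPolynomial.X (Sum.inr (Sum.inr 0)) ^ 2 +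
        MvPolynomial.X (Sum.inr (Sum.inr 0)) ^ 2 + MvPolynomial.X (Sum.inr (Sum.inr 0)) ^ 2)) := by
    simp [zT, zfun, cellIdx, cubIdx, cub, plu, tU, tV, tP, tA, tB, tv]
    ring
  rw [h]
  intro h0
  have h1 := (IsFractionRing.injective (MvPolynomial (TVar 0 1) k) (KT k))
    (h0.trans (map_zero _).symm)
  have h2 := congrArg (MvPolynomial.eval (Sum.elim (fun _ => 0) (Sum.elim (fun _ => 0)
    ![(0 : k), 1]))) h1
  simp at h2

/-- EXPORT: field lemma for `M_H`. -/
theorem expFieldH (k : Type u) [Field k] [IsAlgClosed k] [CharZero k] : ExpFieldH k := by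
  intro b1 b2 n hb1 hb2 hn L _ _ z hL lam r hr hlam
  set pu : Fin 10 → (AC k (SigH b1 b2 n))[X] := fun l => polyOf fun j =>
    acTh k (SigH b1 b2 n) (Sum.inl (l, j)) with hpu
  set pv : Fin 10 → (AC k (SigH b1 b2 n))[X] := fun l => polyOf fun j =>
    acTh k (SigH b1 b2 n) (Sum.inr (Sum.inl (l, j))) with hpv
  set pa : (AC k (SigH b1 b2 n))[X] := polyOf fun j =>
    acTh k (SigH b1 b2 n) (Sum.inr (Sum.inr j)) with hpa
  have hp : GenPoly k (Sum.elim (fun _ => b1) (Sum.elim (fun _ => b2) (fun _ => n)))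
      (Sum.elim pu (Sum.elim pv (fun _ : Unit => pa))) := by
    have h := genPoly_polyOf k (Sum.elim (fun _ : Fin 10 => b1) (Sum.elim (fun _ : Fin 10 => b2)
      (fun _ : Unit => n))) (by rintro (s | s | s) <;> simpa) (idxH b1 b2 n) (idxH_bij b1 b2 n)
    convert h using 1
    funext s
    rcases s with s | s | s <;> rfl
  set A := algebraMap (AC k (SigH b1 b2 n))[X] (RatFunc (AC k (SigH b1 b2 n))) pa with hA
  set m : Idx → RatFunc (AC k (SigH b1 b2 n)) := zfun (ratP pu) (ratP pv) ![A, 0, 1, 0] with hm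
  have hm2 : ∀ I, algebraMap (AC k (SigH b1 b2 n))[X] (RatFunc (AC k (SigH b1 b2 n)))
      ((famH (genTh k (SigH b1 b2 n)) I).map (algebraMap (CoefField k (SigH b1 b2 n))
        (AC k (SigH b1 b2 n)))) = m I := by
    intro I
    have h1 : (famH (genTh k (SigH b1 b2 n)) I).map (algebraMap (CoefField k (SigH b1 b2 n))
        (AC k (SigH b1 b2 n))) = zfun pu pv ![pa, 0, 1, 0] I := by
      have := map_zfun (mapRingHom (algebraMap (CoefField k (SigH b1 b2 n))
        (AC k (SigH b1 b2 n))))
        (fun l => polyOf fun j => genTh k (SigH b1 b2 n) (Sum.inl (l, j)))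
        (fun l => polyOf fun j => genTh k (SigH b1 b2 n) (Sum.inr (Sum.inl (l, j))))
        ![polyOf fun j => genTh k (SigH b1 b2 n) (Sum.inr (Sum.inr j)), 0, 1, 0] I
      simp only [coe_mapRingHom, polyOf_map'] at this
      refine this.trans ?_
      have e : (fun i : Fin 4 => Polynomial.map (algebraMap (CoefField k (SigH b1 b2 n))
          (AC k (SigH b1 b2 n)))
          ((![polyOf fun j => genTh k (SigH b1 b2 n) (Sum.inr (Sum.inr j)), 0, 1, 0] :
            Fin 4 → _) i)) = ![pa, 0, 1, 0] := by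
        funext i
        fin_cases i
        · exact polyOf_map' _ _
        · simp
        · simp
        · simp
      rw [e]
      rfl
    rw [h1, map_zfun]
    have e : (fun i : Fin 4 => algebraMap (AC k (SigH b1 b2 n))[X]
        (RatFunc (AC k (SigH b1 b2 n))) ((![pa, 0, 1, 0] : Fin 4 → _) i)) = ![A, 0, 1, 0] := by
      funext i
      fin_cases i
      · rfl
      · simp
      · simp
      · simp
    rw [e]
    rfl
  have hlam2 : ∀ I, lam (z I) = r * m I := by
    intro I
    rw [← hm2]
    exact hlam I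
  have hratio : ∀ I J, lam (z I / z J) = m I / m J := by
    intro I J
    rw [map_div₀, hlam2, hlam2, mul_div_mul_left _ _ hr]
  have hrat : ratP (Sum.elim pu (Sum.elim pv (fun _ : Unit => pa))) =
      Sum.elim (ratP pu) (Sum.elim (ratP pv) (fun _ => A)) := by
    funext s
    rcases s with s | s | s <;> rfl
  have hind : AlgebraicIndependent k (Sum.elim (ratP pu) (Sum.elim (ratP pv)
      (fun _ : Unit => A))) := by
    rw [← hrat]
    exact ratP_indep hp
  have hT := (indepT _ _ _ hind).1
  have htc : AlgebraicIndependent k (tCoord (ratP pu) (ratP pv) A 0 1) := by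
    have := hT.comp Sum.inl Sum.inl_injective
    exact this
  have hu0 : ratP pu 0 ≠ 0 := by
    have := hT.ne_zero (Sum.inr 0)
    simpa [extraT] using this
  have hP0 : plu (ratP pu) (ratP pv) 0 1 ≠ 0 := by
    have := hT.ne_zero (Sum.inr 1)
    simpa [extraT] using this
  -- the embedding of `K_T`
  obtain ⟨j, hj, hjr⟩ := exists_algHom (k := k) (K := KT k) (tv k)
    (tCoord (ratP pu) (ratP pv) A 0 1)
    ((MvPolynomial.algebraicIndependent_X (TVar 0 1) k).map'
      (f := IsScalarTower.toAlgHom k (MvPolynomial (TVar 0 1) k) (KT k))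
      (IsFractionRing.injective (MvPolynomial (TVar 0 1) k) (KT k))) htc
    (adjoin_genTh k (TVar 0 1))
  set P := plu (ratP pu) (ratP pv) 0 1 with hP
  set lm := (ratP pu 0)⁻¹ with hlm
  set mu := ratP pu 0 / P with hmu
  have hlm0 : lm ≠ 0 := inv_ne_zero hu0
  have hmu0 : mu ≠ 0 := div_ne_zero hu0 hP0
  have hjU : ∀ l, j (tU k l) = lm * ratP pu l := by
    intro l
    by_cases h : l = 0
    · subst h
      simp only [tU, ne_eq, not_true_eq_false, dite_false, map_one, hlm]
      rw [inv_mul_cancel₀ hu0]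
    · have e1 : tU k l = tv k (Sum.inl ⟨l, h⟩) := by simp [tU, h]
      rw [e1, hj]
      simp only [tCoord, Sum.elim_inl, hlm]
      rw [div_eq_inv_mul]
  have hjP : ∀ l, j (tP k l) = plu (ratP pu) (ratP pv) 0 l / P := by
    intro l
    by_cases h : l = 0
    · subst h
      simp [tP, plu]
    · by_cases h1 : l = 1
      · subst h1
        have e1 : tP k 1 = 1 := by simp [tP]
        rw [e1, map_one, div_self hP0]
      · have e1 : tP k l = tv k (Sum.inr (Sum.inl ⟨l, h, h1⟩)) := by simp [tP, h, h1]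
        rw [e1, hj]
        rfl
  have hjB : j (tB k) = ratP pv 0 * ratP pu 0 / P := by
    have := hj (Sum.inr (Sum.inr 0))
    exact this
  have hjA : j (tA k) = A * (mu ^ 2 / lm ^ 2) := by
    have h1 := hj (Sum.inr (Sum.inr 1))
    have h2 : j (tA k) = A * ratP pu 0 ^ 4 / P ^ 2 := h1
    rw [h2, hmu, hlm]
    field_simp
  have hjV : ∀ l, j (tV k l) = mu * ratP pv l := by
    intro l
    rw [tV, map_add, map_mul, hjB, hjU, hjP, hmu, hlm]
    simp only [plu]
    field_simp
    ring
  have hjz : ∀ I, j (zT k I) = lm ^ 2 * mu ^ 3 * m I := by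
    intro I
    have h1 := map_zfun (j : KT k →+* RatFunc (AC k (SigH b1 b2 n))) (tU k) (tV k)
      ![tA k, 0, 1, 0] I
    have e1 : (fun l => (j : KT k →+* RatFunc (AC k (SigH b1 b2 n))) (tU k l)) =
        fun l => lm * ratP pu l := by
      funext l
      exact hjU l
    have e2 : (fun l => (j : KT k →+* RatFunc (AC k (SigH b1 b2 n))) (tV k l)) =
        fun l => mu * ratP pv l := by
      funext l
      exact hjV l
    have e3 : (fun i : Fin 4 => (j : KT k →+* RatFunc (AC k (SigH b1 b2 n)))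
        ((![tA k, 0, 1, 0] : Fin 4 → KT k) i)) = ![A * (mu ^ 2 / lm ^ 2), 0, 1, 0] := by
      funext i
      fin_cases i
      · exact hjA
      · simp
      · simp
      · simp
    rw [e1, e2, e3, zfun_scale _ _ hlm0] at h1
    exact h1
  have hs0 : lm ^ 2 * mu ^ 3 ≠ 0 := mul_ne_zero (pow_ne_zero _ hlm0) (pow_ne_zero _ hmu0)
  have hzT := zT_ne k
  have hm0 : m (cellIdx 0 1 0) ≠ 0 := by
    intro h0
    have := hjz (cellIdx 0 1 0)
    rw [h0, mul_zero] at this
    exact hzT (j.injective (this.trans (map_zero j).symm))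
  -- factorisation
  have hfac : ∀ y : L, ∃ x, j x = lam y := by
    intro y
    have h1 : IsAlgebraic (IntermediateField.adjoin k
        (Set.range (tCoord (ratP pu) (ratP pv) A 0 1))) (lam y) := by
      apply isAlgebraic_map lam {a : L | ∃ i j, a = z i / z j} _ _ y (hL.isAlgebraic y)
      rintro _ ⟨I, J, rfl⟩
      rw [hratio, ← hjr]
      refine ⟨zT k I / zT k J, ?_⟩
      change j (zT k I / zT k J) = _
      rw [map_div₀, hjz, hjz, mul_div_mul_left _ _ hs0]
    have h2 := memT _ pu pv pa hp (lam y) h1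
    change lam y ∈ IntermediateField.adjoin k
        (Set.range (tCoord (ratP pu) (ratP pv) A 0 1)) at h2
    rw [← hjr] at h2
    obtain ⟨x, hx⟩ := h2
    exact ⟨x, hx⟩
  obtain ⟨i, hi⟩ := exists_factor lam j hfac
  refine ⟨i, i (z (cellIdx 0 1 0)) / zT k (cellIdx 0 1 0), ?_, ?_⟩
  · apply div_ne_zero _ hzT
    intro h0
    have := hi (z (cellIdx 0 1 0))
    rw [h0, map_zero, hlam2] at this
    exact mul_ne_zero hr hm0 this.symm
  · intro I
    have e : j (i (z I)) = j (i (z (cellIdx 0 1 0)) / zT k (cellIdx 0 1 0) * zT k I) := by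
      rw [map_mul, map_div₀, hi, hi, hjz, hjz, hlam2, hlam2]
      field_simp
    exact j.injective e

end MP9a7843
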