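import Mathlib

/-!
# MP_9a7843_ag, block FL: algebraic independence by counting
-/

namespace MP9a7843.FL

open Polynomial

private theorem Card_top {k M ι' : Type*} [Field k] [Field M] [Algebra k M] (y : ι' → M)
    (y' : ι' → IntermediateField.adjoin k (Set.range y)) (hy : ∀ i, (y' i : M) = y i) :
    IntermediateField.adjoin k (Set.range y') = ⊤ := by
  apply IntermediateField.lift_injective
  rw [IntermediateField.lift_adjoin, IntermediateField.lift_top]
  congr 1
  ext z
  constructor
  · rintro ⟨_, ⟨i, rfl⟩, rfl⟩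
    exact ⟨i, (hy i).symm⟩
  · rintro ⟨i, rfl⟩
    exact ⟨y' i, ⟨i, rfl⟩, hy i⟩

private theorem Card_alg {k N ι' : Type*} [Field k] [Field N] [Algebra k N] (y : ι' → N)
    (h : IntermediateField.adjoin k (Set.range y) = ⊤) :
    Algebra.IsAlgebraic (Algebra.adjoin k (Set.range y)) N := by
  constructor
  intro z
  have hz : z ∈ IntermediateField.adjoin k (Set.range y) := by
    rw [h]
    exact IntermediateField.mem_top
  rw [IntermediateField.mem_adjoin_iff_div] at hz
  obtain ⟨r, hr, s, hs, hz⟩ := hz
  by_cases h0 : s = 0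
  · rw [hz, h0, div_zero]
    exact isAlgebraic_zero
  · refine ⟨C (⟨s, hs⟩ : Algebra.adjoin k (Set.range y)) * X - C ⟨r, hr⟩, ?_, ?_⟩
    · intro h1
      have h2 := congrArg (fun p => Polynomial.coeff p 1) h1
      simp only [coeff_sub, coeff_C_mul, coeff_X_one, mul_one, coeff_C_succ, sub_zero,
        coeff_zero] at h2
      exact h0 (congrArg Subtype.val h2)
    · rw [map_sub, map_mul, aeval_C, aeval_C, aeval_X, hz]
      show s * (r / s) - r = 0
      field_simp
      ring

private theorem Card_abs {k N ι ι' : Type*} [Field k] [Field N] [Algebra k N] [Finite ι]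
    [Finite ι'] (hc : Nat.card ι' = Nat.card ι) (w : ι → N) (y : ι' → N)
    (hw : AlgebraicIndependent k w) (htop : IntermediateField.adjoin k (Set.range y) = ⊤) :
    AlgebraicIndependent k y := by
  have halg := Card_alg y htop
  have hle := hw.lift_cardinalMk_le_trdeg
  obtain ⟨e⟩ : Nonempty (ι' ≃ ι) := Finite.card_eq.1 hc
  have hr : Set.range (y ∘ e.symm) = Set.range y := e.symm.surjective.range_comp y
  have halg2 : Algebra.IsAlgebraic (Algebra.adjoin k (Set.range (y ∘ e.symm))) N := by
    rw [hr]
    exact halg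
  have h1 := Algebra.IsAlgebraic.isTranscendenceBasis_of_lift_le_trdeg_of_finite k
    (y ∘ e.symm) hle
  have h3 := h1.1.comp e e.injective
  have h4 : (y ∘ e.symm) ∘ e = y := by
    funext i
    simp
  rwa [h4] at h3

private theorem Card_map {k N M ι ι' : Type*} [Field k] [Field N] [Field M] [Algebra k N]
    [Algebra k M] [Finite ι] [Finite ι'] (f : N →ₐ[k] M) (hc : Nat.card ι' = Nat.card ι)
    (w : ι → N) (y : ι' → N) (w₀ : ι → M) (y₀ : ι' → M) (hfw : ∀ i, f (w i) = w₀ i)
    (hfy : ∀ i, f (y i) = y₀ i) (hw : AlgebraicIndependent k w₀)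
    (htop : IntermediateField.adjoin k (Set.range y) = ⊤) : AlgebraicIndependent k y₀ := by
  have h1 : w₀ = f ∘ w := funext fun i => (hfw i).symm
  have h2 : y₀ = f ∘ y := funext fun i => (hfy i).symm
  rw [h1] at hw
  rw [h2]
  exact (AlgHom.algebraicIndependent_iff f f.injective).2 (Card_abs hc w y
    ((AlgHom.algebraicIndependent_iff f f.injective).1 hw) htop)

/-- Statement FL8.  A family `y` of the same (finite) length as an algebraically independent family
`w` such that `w_i ∈ k(y)` is algebraically independent.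

PROOF.  In `N = k(y)`: the trdeg of `N` is at least `card ι`
(`AlgebraicIndependent.lift_cardinalMk_le_trdeg` for `w`
corestricted to `N`), `N` is algebraic over `k[y]`, so `y` is a transcendence basis of `N`
(`isTranscendenceBasis_of_lift_le_trdeg_of_finite`); map back to `M`. -/
theorem algebraicIndependent_of_mem {k M ι ι' : Type*} [Field k] [Field M] [Algebra k M] [Finite ι]
    [Finite ι'] (hc : Nat.card ι' = Nat.card ι) (w : ι → M) (y : ι' → M)
    (hw : AlgebraicIndependent k w)
    (h : ∀ i, w i ∈ IntermediateField.adjoin k (Set.range y)) : AlgebraicIndependent k y := by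
  exact Card_map (IntermediateField.adjoin k (Set.range y)).val hc (fun i => ⟨w i, h i⟩)
    (fun i => ⟨y i, IntermediateField.subset_adjoin k _ ⟨i, rfl⟩⟩) w y (fun _ => rfl)
    (fun _ => rfl) hw (Card_top y _ fun _ => rfl)

end MP9a7843.FL
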