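import Mathlib
import Pool.Agent.Lib.MP_9a7843_ag_B.Base

/-!
# MP_9a7843_ag, block FL: the point `zfun u v c` in the main cell
-/

namespace MP9a7843.FL

/-- Statement FL24.  Every point `zfun u v c` with non zero main coordinate is the point with the
cell coordinates. -/
theorem zfun_eq_cell {K : Type*} [Field K] (u v : Fin 10 → K) (c : Fin 4 → K)
    (h : zfun u v c (cellIdx 0 1 0) ≠ 0) (I : Idx) :
    zfun u v c I = zfun u v c (cellIdx 0 1 0) *
      zfun (cellE (zfun u v c) 0 1 0) (cellE' (zfun u v c) 0 1 0) (cellG (zfun u v c) 0 1 0) I := by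
  have hF : cub u v c 0 0 0 ≠ 0 := fun h0 => h (by simp [zfun, cellIdx, cubIdx, h0])
  have hP : plu u v 0 1 ≠ 0 := fun h0 => h (by simp [zfun, cellIdx, cubIdx, h0])
  have hE : ∀ l, cellE (zfun u v c) 0 1 0 l = plu u v l 1 / plu u v 0 1 := by
    intro l
    simp only [cellE, zfun, cellIdx, cubIdx, Matrix.cons_val_zero]
    field_simp
  have hE' : ∀ l, cellE' (zfun u v c) 0 1 0 l = plu u v 0 l / plu u v 0 1 := by
    intro l
    simp only [cellE', zfun, cellIdx, cubIdx, Matrix.cons_val_zero]
    field_simp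
  have hG0 : cellG (zfun u v c) 0 1 0 0 = 1 := by
    simp only [cellG]
    exact div_self h
  have hG1 : cellG (zfun u v c) 0 1 0 1 = cub u v c 0 0 1 / cub u v c 0 0 0 := by
    simp only [cellG, zfun, cellIdx, cubIdx, Matrix.cons_val_zero, Matrix.cons_val_one]
    field_simp
  have hG2 : cellG (zfun u v c) 0 1 0 2 = cub u v c 0 1 1 / cub u v c 0 0 0 := by
    simp only [cellG, zfun, cellIdx, cubIdx, Matrix.cons_val_zero, Matrix.cons_val]
    field_simp
  have hG3 : cellG (zfun u v c) 0 1 0 3 = cub u v c 1 1 1 / cub u v c 0 0 0 := by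
    simp only [cellG, zfun, cellIdx, cubIdx, Matrix.cons_val_zero, Matrix.cons_val]
    field_simp
  obtain ⟨⟨a, b, d⟩, ⟨e, f⟩⟩ := I
  have hz : zfun u v c (cellIdx 0 1 0) = cub u v c 0 0 0 * plu u v 0 1 := by
    simp [zfun, cellIdx, cubIdx]
  have hplu : plu (cellE (zfun u v c) 0 1 0) (cellE' (zfun u v c) 0 1 0) e f =
      plu u v e f / plu u v 0 1 := by
    have key : plu u v e 1 * plu u v 0 f - plu u v f 1 * plu u v 0 e =
        plu u v e f * plu u v 0 1 := by
      simp only [plu]
      ring
    have h1 : plu (cellE (zfun u v c) 0 1 0) (cellE' (zfun u v c) 0 1 0) e f =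
        (plu u v e 1 / plu u v 0 1) * (plu u v 0 f / plu u v 0 1) -
          (plu u v f 1 / plu u v 0 1) * (plu u v 0 e / plu u v 0 1) := by
      rw [← hE, ← hE, ← hE', ← hE']
      rfl
    rw [h1]
    generalize plu u v 0 1 = P at *
    field_simp
    linear_combination key
  have hcub : cub (cellE (zfun u v c) 0 1 0) (cellE' (zfun u v c) 0 1 0)
      (cellG (zfun u v c) 0 1 0) a b d = cub u v c a b d / cub u v c 0 0 0 := by
    have key : cub u v c 0 0 0 * (plu u v a 1 * plu u v b 1 * plu u v d 1) +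
        cub u v c 0 0 1 * (plu u v a 1 * plu u v b 1 * plu u v 0 d +
          plu u v a 1 * plu u v 0 b * plu u v d 1 + plu u v 0 a * plu u v b 1 * plu u v d 1) +
        cub u v c 0 1 1 * (plu u v a 1 * plu u v 0 b * plu u v 0 d +
          plu u v 0 a * plu u v b 1 * plu u v 0 d + plu u v 0 a * plu u v 0 b * plu u v d 1) +
        cub u v c 1 1 1 * (plu u v 0 a * plu u v 0 b * plu u v 0 d) =
        cub u v c a b d * plu u v 0 1 ^ 3 := by
      simp only [cub, plu]
      ring
    have h2 : cub (cellE (zfun u v c) 0 1 0) (cellE' (zfun u v c) 0 1 0)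
        (cellG (zfun u v c) 0 1 0) a b d =
        1 * ((plu u v a 1 / plu u v 0 1) * (plu u v b 1 / plu u v 0 1) *
            (plu u v d 1 / plu u v 0 1)) +
        cub u v c 0 0 1 / cub u v c 0 0 0 * ((plu u v a 1 / plu u v 0 1) *
            (plu u v b 1 / plu u v 0 1) * (plu u v 0 d / plu u v 0 1) +
          (plu u v a 1 / plu u v 0 1) * (plu u v 0 b / plu u v 0 1) *
            (plu u v d 1 / plu u v 0 1) + (plu u v 0 a / plu u v 0 1) *
            (plu u v b 1 / plu u v 0 1) * (plu u v d 1 / plu u v 0 1)) +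
        cub u v c 0 1 1 / cub u v c 0 0 0 * ((plu u v a 1 / plu u v 0 1) *
            (plu u v 0 b / plu u v 0 1) * (plu u v 0 d / plu u v 0 1) +
          (plu u v 0 a / plu u v 0 1) * (plu u v b 1 / plu u v 0 1) *
            (plu u v 0 d / plu u v 0 1) + (plu u v 0 a / plu u v 0 1) *
            (plu u v 0 b / plu u v 0 1) * (plu u v d 1 / plu u v 0 1)) +
        cub u v c 1 1 1 / cub u v c 0 0 0 * ((plu u v 0 a / plu u v 0 1) *
            (plu u v 0 b / plu u v 0 1) * (plu u v 0 d / plu u v 0 1)) := by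
      rw [← hG0, ← hG1, ← hG2, ← hG3]
      simp only [← hE, ← hE']
      rfl
    rw [h2]
    generalize plu u v 0 1 = P at *
    generalize cub u v c 0 0 0 = F0 at *
    generalize cub u v c 0 0 1 = F1 at *
    generalize cub u v c 0 1 1 = F2 at *
    generalize cub u v c 1 1 1 = F3 at *
    generalize cub u v c a b d = F at *
    generalize plu u v a 1 = xa at *
    generalize plu u v b 1 = xb at *
    generalize plu u v d 1 = xd at *
    generalize plu u v 0 a = ya at *
    generalize plu u v 0 b = yb at *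
    generalize plu u v 0 d = yd at *
    field_simp
    linear_combination key
  have hl : zfun u v c ((a, b, d), (e, f)) = cub u v c a b d * plu u v e f := rfl
  have hr : zfun (cellE (zfun u v c) 0 1 0) (cellE' (zfun u v c) 0 1 0)
      (cellG (zfun u v c) 0 1 0) ((a, b, d), (e, f)) =
      (cub u v c a b d / cub u v c 0 0 0) * (plu u v e f / plu u v 0 1) := by
    rw [← hplu, ← hcub]
    rfl
  rw [hl, hr, hz]
  field_simp

end MP9a7843.FL
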