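import Mathlib

/-!
# MP_9a7843_ag, block FL: homomorphisms of fields generated by algebraically independent elements
-/

namespace MP9a7843.FL

open Polynomial

private theorem fieldRange_aux {k K M ι : Type*} [Field k] [Field K] [Field M] [Algebra k K]
    [Algebra k M] (y : ι → K) (y' : ι → M) (hg : IntermediateField.adjoin k (Set.range y) = ⊤)
    (j : K →ₐ[k] M) (hj : ∀ i, j (y i) = y' i) :
    j.fieldRange = IntermediateField.adjoin k (Set.range y') := by
  rw [AlgHom.fieldRange_eq_map, ← hg, IntermediateField.adjoin_map, ← Set.range_comp]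
  congr 2
  funext i
  exact hj i

/-- the homomorphism of FL22 -/
private noncomputable def j0 {k K M ι : Type*} [Field k] [Field K] [Field M] [Algebra k K]
    [Algebra k M] {y : ι → K} {y' : ι → M} (hy : AlgebraicIndependent k y)
    (hy' : AlgebraicIndependent k y')
    (hg : IntermediateField.adjoin k (Set.range y) = ⊤) : K →ₐ[k] M :=
  (IntermediateField.adjoin k (Set.range y')).val.comp
    ((hy'.aevalEquivField.toAlgHom.comp hy.aevalEquivField.symm.toAlgHom).comp
      (((IntermediateField.equivOfEq hg).symm.toAlgHom.comp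
        IntermediateField.topEquiv.symm.toAlgHom)))

private theorem j0_apply {k K M ι : Type*} [Field k] [Field K] [Field M] [Algebra k K]
    [Algebra k M] {y : ι → K} {y' : ι → M} (hy : AlgebraicIndependent k y)
    (hy' : AlgebraicIndependent k y')
    (hg : IntermediateField.adjoin k (Set.range y) = ⊤) (i : ι) :
    j0 hy hy' hg (y i) = y' i := by
  have h1 : hy.aevalEquivField (algebraMap (MvPolynomial ι k) _ (MvPolynomial.X i)) =
      (⟨y i, IntermediateField.subset_adjoin _ _ ⟨i, rfl⟩⟩ :
        IntermediateField.adjoin k (Set.range y)) := by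
    apply Subtype.ext
    rw [hy.aevalEquivField_algebraMap_apply_coe, MvPolynomial.aeval_X]
  have h2 := (AlgEquiv.symm_apply_eq hy.aevalEquivField).2 h1.symm
  show ((hy'.aevalEquivField (hy.aevalEquivField.symm
    (⟨y i, IntermediateField.subset_adjoin _ _ ⟨i, rfl⟩⟩ :
        IntermediateField.adjoin k (Set.range y)))) : M) = y' i
  rw [h2, hy'.aevalEquivField_algebraMap_apply_coe, MvPolynomial.aeval_X]

/-- Statement FL22.  A field generated by algebraically independent elements maps to any field with
algebraically independent elements of the same names.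

PROOF.  `AlgebraicIndependent.aevalEquivField` on both sides. -/
theorem exists_algHom {k K M ι : Type*} [Field k] [Field K] [Field M] [Algebra k K] [Algebra k M]
    (y : ι → K) (y' : ι → M) (hy : AlgebraicIndependent k y) (hy' : AlgebraicIndependent k y')
    (hg : IntermediateField.adjoin k (Set.range y) = ⊤) :
    ∃ j : K →ₐ[k] M, (∀ i, j (y i) = y' i) ∧
      j.fieldRange = IntermediateField.adjoin k (Set.range y') := by
  have h1 : ∀ i, j0 hy hy' hg (y i) = y' i := j0_apply hy hy' hg
  exact ⟨j0 hy hy' hg, h1, fieldRange_aux y y' hg _ h1⟩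

/-- Statement FL23.  Any `j : K → M` with `j (y i) = y' i`, `K = k(y)`, has range `k(y')`.

PROOF.  `IntermediateField.adjoin_map`, `AlgHom.fieldRange_eq_map`. -/
theorem fieldRange_eq {k K M ι : Type*} [Field k] [Field K] [Field M] [Algebra k K] [Algebra k M]
    (y : ι → K) (y' : ι → M) (hg : IntermediateField.adjoin k (Set.range y) = ⊤)
    (j : K →ₐ[k] M) (hj : ∀ i, j (y i) = y' i) :
    j.fieldRange = IntermediateField.adjoin k (Set.range y') := by
  exact fieldRange_aux y y' hg j hj

/-- EXPORT FLL (lifting): if `λ(K_Y) ⊂ j(K_Z)` then `λ` factors over `j`. -/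
theorem exists_factor {k KY KZ M : Type*} [Field k] [Field KY] [Field KZ] [Field M] [Algebra k KY]
    [Algebra k KZ] [Algebra k M] (l : KY →ₐ[k] M) (j : KZ →ₐ[k] M) (h : ∀ y, ∃ x, j x = l y) :
    ∃ μ : KY →ₐ[k] KZ, ∀ y, j (μ y) = l y := by
  let e := AlgEquiv.ofInjectiveField j
  have h2 : ∀ y, l y ∈ j.range := fun y => by
    obtain ⟨x, hx⟩ := h y
    exact ⟨x, hx⟩
  refine ⟨e.symm.toAlgHom.comp (l.codRestrict j.range h2), fun y => ?_⟩
  show j (e.symm ⟨l y, h2 y⟩) = l y
  have h3 : (e (e.symm ⟨l y, h2 y⟩) : M) = l y := by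
    rw [AlgEquiv.apply_symm_apply]
  exact h3

end MP9a7843.FL
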