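import Pool.Agent.Lib.MP_9a7843_ag_FL.Card
import Pool.Agent.Lib.MP_9a7843_ag_B.Base

/-!
# MP_9a7843_ag, block FL: the function field of T inside k(u, v, a0)
-/

namespace MP9a7843.FL

open Polynomial

/-- The two extra coordinates for `T`. -/
def extraT {M : Type*} [Field M] (u v : Fin 10 → M) : Fin 2 → M := ![u 0, plu u v 0 1]

/-- Statement FL21.

PROOF.  `u_l = u0 t_l`, `P_0l = P_01 p_l`, `v_0 = b P_01 / u0`, `v_l = (P_0l + u_l v_0) / u_0`,
`a0 = a P_01^2 / u0^4`; FL8 (21 elements each). -/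
theorem indepT {k M : Type*} [Field k] [Field M] [Algebra k M] (u v : Fin 10 → M)
    (a0 : M) (h : AlgebraicIndependent k (Sum.elim u (Sum.elim v (fun _ : Unit => a0)))) :
    AlgebraicIndependent k (Sum.elim (tCoord u v a0 0 1) (extraT u v)) ∧
      (∀ x ∈ Set.range (Sum.elim u (Sum.elim v (fun _ : Unit => a0))),
        x ∈ IntermediateField.adjoin k
          (Set.range (tCoord u v a0 0 1) ∪ Set.range (extraT u v))) := by
  have hu0 : u 0 ≠ 0 := h.ne_zero (Sum.inl 0)
  have hp : plu u v 0 1 ≠ 0 := by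
    intro h0
    have h1 : MvPolynomial.aeval (Sum.elim u (Sum.elim v (fun _ : Unit => a0)))
        (MvPolynomial.X (Sum.inl 0) * MvPolynomial.X (Sum.inr (Sum.inl 1)) -
          MvPolynomial.X (Sum.inl 1) * MvPolynomial.X (Sum.inr (Sum.inl 0)) :
          MvPolynomial (Fin 10 ⊕ Fin 10 ⊕ Unit) k) = 0 := by
      rw [map_sub, map_mul, map_mul]
      simp only [MvPolynomial.aeval_X, Sum.elim_inl, Sum.elim_inr]
      exact h0
    have h2 := (algebraicIndependent_iff.1 h) _ h1
    have h3 := congrArg (MvPolynomial.eval (fun i : Fin 10 ⊕ Fin 10 ⊕ Unit =>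
      if i = Sum.inl 0 ∨ i = Sum.inr (Sum.inl 1) then (1 : k) else 0)) h2
    simp at h3
  have key : ∀ x ∈ Set.range (Sum.elim u (Sum.elim v (fun _ : Unit => a0))),
        x ∈ IntermediateField.adjoin k
          (Set.range (tCoord u v a0 0 1) ∪ Set.range (extraT u v)) := by
    set L := IntermediateField.adjoin k
      (Set.range (tCoord u v a0 0 1) ∪ Set.range (extraT u v)) with hL
    have hT : ∀ i, tCoord u v a0 0 1 i ∈ L := fun i =>
      IntermediateField.subset_adjoin k _ (Or.inl ⟨i, rfl⟩)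
    have hE : ∀ i, extraT u v i ∈ L := fun i =>
      IntermediateField.subset_adjoin k _ (Or.inr ⟨i, rfl⟩)
    have m0 : u 0 ∈ L := hE 0
    have mp : plu u v 0 1 ∈ L := hE 1
    have mu : ∀ l, u l ∈ L := by
      intro l
      by_cases hl : l = 0
      · rw [hl]
        exact m0
      · have h1 : u l / u 0 ∈ L := hT (Sum.inl ⟨l, hl⟩)
        have h2 := L.mul_mem h1 m0
        rwa [div_mul_cancel₀ _ hu0] at h2
    have mb : v 0 * u 0 / plu u v 0 1 ∈ L := hT (Sum.inr (Sum.inr 0))
    have ma : a0 * u 0 ^ 4 / plu u v 0 1 ^ 2 ∈ L := hT (Sum.inr (Sum.inr 1))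
    have mv0 : v 0 ∈ L := by
      have h1 := L.div_mem (L.mul_mem mb mp) m0
      have h2 : v 0 * u 0 / plu u v 0 1 * plu u v 0 1 / u 0 = v 0 := by
        field_simp
      rwa [h2] at h1
    have mP : ∀ l, plu u v 0 l ∈ L := by
      intro l
      by_cases hl : l = 0
      · have : plu u v 0 l = 0 := by
          rw [hl]
          unfold plu
          ring
        rw [this]
        exact L.zero_mem
      · by_cases hl1 : l = 1
        · rw [hl1]
          exact mp
        · have h1 : plu u v 0 l / plu u v 0 1 ∈ L := hT (Sum.inr (Sum.inl ⟨l, hl, hl1⟩))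
          have h2 := L.mul_mem h1 mp
          rwa [div_mul_cancel₀ _ hp] at h2
    have mv : ∀ l, v l ∈ L := by
      intro l
      have h1 := L.div_mem (L.add_mem (mP l) (L.mul_mem (mu l) mv0)) m0
      have h2 : (plu u v 0 l + u l * v 0) / u 0 = v l := by
        unfold plu
        field_simp
        ring
      rwa [h2] at h1
    have ma0 : a0 ∈ L := by
      have h1 := L.div_mem (L.mul_mem ma (pow_mem mp 2)) (pow_mem m0 4)
      have h2 : a0 * u 0 ^ 4 / plu u v 0 1 ^ 2 * plu u v 0 1 ^ 2 / u 0 ^ 4 = a0 := by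
        field_simp
      rwa [h2] at h1
    rintro x ⟨i, rfl⟩
    rcases i with l | l | l
    · exact mu l
    · exact mv l
    · exact ma0
  refine ⟨?_, key⟩
  refine algebraicIndependent_of_mem ?_ _ _ h fun i => ?_
  · rw [Nat.card_eq_fintype_card, Nat.card_eq_fintype_card]
    decide
  · rw [Set.Sum.elim_range]
    exact key _ ⟨i, rfl⟩

end MP9a7843.FL
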