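import Pool.Agent.Lib.MP_9a7843_ag_FL.Card
import Pool.Agent.Lib.MP_9a7843_ag_B.Base

/-!
# MP_9a7843_ag, block FL: the function field of X inside k(u, v, c)
-/

namespace MP9a7843.FL

open Polynomial

/-- The four extra coordinates of a basis and one of the cubic form. -/
def extraX {M : Type*} [Field M] (u v : Fin 10 → M) (c : Fin 4 → M) : Fin 5 → M :=
  ![u 0, u 1, v 0, v 1, cub u v c 0 0 0]

private theorem ne_zero_of_eval {k M ι : Type*} [Field k] [Field M] [Algebra k M] {w : ι → M}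
    (h : AlgebraicIndependent k w) (p : MvPolynomial ι k) (e : ι → k)
    (he : MvPolynomial.eval e p ≠ 0) : MvPolynomial.aeval w p ≠ 0 := by
  intro h0
  have : p = 0 := by
    apply h
    rw [h0, map_zero]
  exact he (by rw [this, map_zero])

private theorem plu_ne {k M : Type*} [Field k] [Field M] [Algebra k M] (u v : Fin 10 → M)
    (c : Fin 4 → M) (h : AlgebraicIndependent k (Sum.elim u (Sum.elim v c))) :
    plu u v 0 1 ≠ 0 := by
  have := ne_zero_of_eval h
    (MvPolynomial.X (Sum.inl 0) * MvPolynomial.X (Sum.inr (Sum.inl 1)) -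
      MvPolynomial.X (Sum.inl 1) * MvPolynomial.X (Sum.inr (Sum.inl 0)))
    (Sum.elim (fun i => if i = 0 then 1 else 0)
      (Sum.elim (fun i => if i = 1 then 1 else 0) (fun _ => 0))) (by simp)
  simpa [plu] using this

private theorem cub_ne {k M : Type*} [Field k] [Field M] [Algebra k M] (u v : Fin 10 → M)
    (c : Fin 4 → M) (h : AlgebraicIndependent k (Sum.elim u (Sum.elim v c))) :
    cub u v c 0 0 0 ≠ 0 := by
  have := ne_zero_of_eval h
    (cub (fun i => MvPolynomial.X (Sum.inl i)) (fun i => MvPolynomial.X (Sum.inr (Sum.inl i)))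
      (fun i => MvPolynomial.X (Sum.inr (Sum.inr i))) 0 0 0)
    (Sum.elim (fun i => if i = 0 then 1 else 0)
      (Sum.elim (fun _ => 0) (fun i => if i = 0 then 1 else 0))) (by simp [cub])
  simpa [cub] using this

private theorem mem_all {k M : Type*} [Field k] [Field M] [Algebra k M] (u v : Fin 10 → M)
    (c : Fin 4 → M) (hP : plu u v 0 1 ≠ 0) (hF : cub u v c 0 0 0 ≠ 0)
    (N : IntermediateField k M)
    (h1 : ∀ a, cellCoord (zfun u v c) 0 1 0 a ∈ N) (h2 : ∀ a, extraX u v c a ∈ N) :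
    ∀ x ∈ Set.range (Sum.elim u (Sum.elim v c)), x ∈ N := by
  have hu0 : u 0 ∈ N := by simpa [extraX] using h2 0
  have hu1 : u 1 ∈ N := by simpa [extraX] using h2 1
  have hv0 : v 0 ∈ N := by simpa [extraX] using h2 2
  have hv1 : v 1 ∈ N := by simpa [extraX] using h2 3
  have hF0 : cub u v c 0 0 0 ∈ N := by simpa [extraX] using h2 4
  have hE : ∀ l : Fin 10, l ≠ 0 → l ≠ 1 → plu u v l 1 / plu u v 0 1 ∈ N := by
    intro l hl0 hl1
    have := h1 (Sum.inl ⟨l, hl0, hl1⟩)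
    simp only [cellCoord, Sum.elim_inl, cellE, cubIdx, cellIdx, zfun] at this
    simp only [Matrix.cons_val_zero] at this
    rwa [mul_div_mul_left _ _ hF] at this
  have hE' : ∀ l : Fin 10, l ≠ 0 → l ≠ 1 → plu u v 0 l / plu u v 0 1 ∈ N := by
    intro l hl0 hl1
    have := h1 (Sum.inr (Sum.inl ⟨l, hl0, hl1⟩))
    simp only [cellCoord, Sum.elim_inl, Sum.elim_inr, cellE', cubIdx, cellIdx, zfun] at this
    simp only [Matrix.cons_val_zero] at this
    rwa [mul_div_mul_left _ _ hF] at this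
  have hG1 : cub u v c 0 0 1 ∈ N := by
    have := h1 (Sum.inr (Sum.inr ⟨1, by decide⟩))
    simp only [cellCoord, Sum.elim_inr, cellG, cubIdx, cellIdx, zfun] at this
    simp only [Matrix.cons_val_zero, Matrix.cons_val_one] at this
    rw [mul_div_mul_right _ _ hP] at this
    have h3 := mul_mem this hF0
    rwa [div_mul_cancel₀ _ hF] at h3
  have hG2 : cub u v c 0 1 1 ∈ N := by
    have := h1 (Sum.inr (Sum.inr ⟨2, by decide⟩))
    simp only [cellCoord, Sum.elim_inr, cellG, cubIdx, cellIdx, zfun] at this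
    simp only [Matrix.cons_val_zero, Matrix.cons_val] at this
    rw [mul_div_mul_right _ _ hP] at this
    have h3 := mul_mem this hF0
    rwa [div_mul_cancel₀ _ hF] at h3
  have hG3 : cub u v c 1 1 1 ∈ N := by
    have := h1 (Sum.inr (Sum.inr ⟨3, by decide⟩))
    simp only [cellCoord, Sum.elim_inr, cellG, cubIdx, cellIdx, zfun] at this
    simp only [Matrix.cons_val_zero, Matrix.cons_val] at this
    rw [mul_div_mul_right _ _ hP] at this
    have h3 := mul_mem this hF0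
    rwa [div_mul_cancel₀ _ hF] at h3
  have hPN : plu u v 0 1 ∈ N := sub_mem (mul_mem hu0 hv1) (mul_mem hu1 hv0)
  have hu : ∀ l, u l ∈ N := by
    intro l
    by_cases hl0 : l = 0
    · rw [hl0]; exact hu0
    by_cases hl1 : l = 1
    · rw [hl1]; exact hu1
    have h3 : u l = u 0 * (plu u v l 1 / plu u v 0 1) + u 1 * (plu u v 0 l / plu u v 0 1) := by
      rw [← mul_div_assoc, ← mul_div_assoc, ← add_div, eq_div_iff hP]
      simp only [plu]
      ring
    rw [h3]
    exact add_mem (mul_mem hu0 (hE l hl0 hl1)) (mul_mem hu1 (hE' l hl0 hl1))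
  have hv : ∀ l, v l ∈ N := by
    intro l
    by_cases hl0 : l = 0
    · rw [hl0]; exact hv0
    by_cases hl1 : l = 1
    · rw [hl1]; exact hv1
    have h3 : v l = v 0 * (plu u v l 1 / plu u v 0 1) + v 1 * (plu u v 0 l / plu u v 0 1) := by
      rw [← mul_div_assoc, ← mul_div_assoc, ← add_div, eq_div_iff hP]
      simp only [plu]
      ring
    rw [h3]
    exact add_mem (mul_mem hv0 (hE l hl0 hl1)) (mul_mem hv1 (hE' l hl0 hl1))
  have hP3 : plu u v 0 1 ^ 3 ≠ 0 := pow_ne_zero 3 hP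
  have hP3N : plu u v 0 1 ^ 3 ∈ N := pow_mem hPN 3
  have e0 : c 0 = (cub u v c 0 0 0 * v 1 ^ 3 - 3 * cub u v c 0 0 1 * (v 1 ^ 2 * v 0)
      + 3 * cub u v c 0 1 1 * (v 1 * v 0 ^ 2) - cub u v c 1 1 1 * v 0 ^ 3) /
        plu u v 0 1 ^ 3 := by
    rw [eq_div_iff hP3]
    simp only [plu, cub]
    ring
  have e1 : c 1 = (-(cub u v c 0 0 0 * (v 1 ^ 2 * u 1))
      + cub u v c 0 0 1 * (2 * (v 1 * v 0 * u 1) + v 1 ^ 2 * u 0)
      - cub u v c 0 1 1 * (v 0 ^ 2 * u 1 + 2 * (v 1 * v 0 * u 0))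
      + cub u v c 1 1 1 * (v 0 ^ 2 * u 0)) / plu u v 0 1 ^ 3 := by
    rw [eq_div_iff hP3]
    simp only [plu, cub]
    ring
  have e2 : c 2 = (cub u v c 0 0 0 * (v 1 * u 1 ^ 2)
      - cub u v c 0 0 1 * (2 * (v 1 * u 1 * u 0) + v 0 * u 1 ^ 2)
      + cub u v c 0 1 1 * (v 1 * u 0 ^ 2 + 2 * (v 0 * u 1 * u 0))
      - cub u v c 1 1 1 * (v 0 * u 0 ^ 2)) / plu u v 0 1 ^ 3 := by
    rw [eq_div_iff hP3]
    simp only [plu, cub]
    ring
  have e3 : c 3 = (-(cub u v c 0 0 0 * u 1 ^ 3) + 3 * cub u v c 0 0 1 * (u 1 ^ 2 * u 0)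
      - 3 * cub u v c 0 1 1 * (u 1 * u 0 ^ 2) + cub u v c 1 1 1 * u 0 ^ 3) /
        plu u v 0 1 ^ 3 := by
    rw [eq_div_iff hP3]
    simp only [plu, cub]
    ring
  have hn2 : (2 : M) ∈ N := by exact_mod_cast natCast_mem N 2
  have hn3 : (3 : M) ∈ N := by exact_mod_cast natCast_mem N 3
  have hc0 : c 0 ∈ N := by
    rw [e0]
    refine div_mem (sub_mem (add_mem (sub_mem ?_ ?_) ?_) ?_) hP3N
    · exact mul_mem hF0 (pow_mem hv1 3)
    · exact mul_mem (mul_mem hn3 hG1) (mul_mem (pow_mem hv1 2) hv0)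
    · exact mul_mem (mul_mem hn3 hG2) (mul_mem hv1 (pow_mem hv0 2))
    · exact mul_mem hG3 (pow_mem hv0 3)
  have hc1 : c 1 ∈ N := by
    rw [e1]
    refine div_mem (add_mem (sub_mem (add_mem (neg_mem ?_) ?_) ?_) ?_) hP3N
    · exact mul_mem hF0 (mul_mem (pow_mem hv1 2) hu1)
    · exact mul_mem hG1 (add_mem (mul_mem hn2 (mul_mem (mul_mem hv1 hv0) hu1))
        (mul_mem (pow_mem hv1 2) hu0))
    · exact mul_mem hG2 (add_mem (mul_mem (pow_mem hv0 2) hu1)
        (mul_mem hn2 (mul_mem (mul_mem hv1 hv0) hu0)))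
    · exact mul_mem hG3 (mul_mem (pow_mem hv0 2) hu0)
  have hc2 : c 2 ∈ N := by
    rw [e2]
    refine div_mem (sub_mem (add_mem (sub_mem ?_ ?_) ?_) ?_) hP3N
    · exact mul_mem hF0 (mul_mem hv1 (pow_mem hu1 2))
    · exact mul_mem hG1 (add_mem (mul_mem hn2 (mul_mem (mul_mem hv1 hu1) hu0))
        (mul_mem hv0 (pow_mem hu1 2)))
    · exact mul_mem hG2 (add_mem (mul_mem hv1 (pow_mem hu0 2))
        (mul_mem hn2 (mul_mem (mul_mem hv0 hu1) hu0)))
    · exact mul_mem hG3 (mul_mem hv0 (pow_mem hu0 2))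
  have hc3 : c 3 ∈ N := by
    rw [e3]
    refine div_mem (add_mem (sub_mem (add_mem (neg_mem ?_) ?_) ?_) ?_) hP3N
    · exact mul_mem hF0 (pow_mem hu1 3)
    · exact mul_mem (mul_mem hn3 hG1) (mul_mem (pow_mem hu1 2) hu0)
    · exact mul_mem (mul_mem hn3 hG2) (mul_mem hu1 (pow_mem hu0 2))
    · exact mul_mem hG3 (pow_mem hu0 3)
  rintro x ⟨i, rfl⟩
  rcases i with i | i | i
  · exact hu i
  · exact hv i
  · fin_cases i
    · exact hc0
    · exact hc1
    · exact hc2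
    · exact hc3

/-- Statement FL20.

PROOF.  `P_01 = u0 v1 - u1 v0`, `u_l = u0 E_l + u1 E'_l`, `v_l = v0 E_l + v1 E'_l` with `E_l =
P_l1 / P_01`,
`E'_l = P_0l / P_01`; `F_m := F(0^{3-m} 1^m) = gamma_m F_000`; the `c_i` are the coefficients of
the cubic with
values `F_m` in the basis `E, E'`: `E = (v1 u - u1 v) / P_01`, `E' = (-v0 u + u0 v) / P_01`, so e.g.
`c 0 = (F_0 v1^3 - 3 F_1 v1^2 v0 + 3 F_2 v1 v0^2 - F_3 v0^3) / P_01^3`, `c 1 = (- F_0 v1^2 u1 +
F_1 (2 v1 v0 u1 + v1^2 u0) -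
F_2 (v0^2 u1 + 2 v1 v0 u0) + F_3 v0^2 u0) / P_01^3` etc.  (`P_01 ≠ 0`, `F_000 ≠ 0` by algebraic
independence.)
Hence `u, v, c ∈ k(cellCoord, extraX)`: FL8 (24 elements each). -/
theorem indepX {k M : Type*} [Field k] [CharZero k] [Field M] [Algebra k M] (u v : Fin 10 → M)
    (c : Fin 4 → M) (h : AlgebraicIndependent k (Sum.elim u (Sum.elim v c))) :
    AlgebraicIndependent k (Sum.elim (cellCoord (zfun u v c) 0 1 0) (extraX u v c)) ∧
      (∀ x ∈ Set.range (Sum.elim u (Sum.elim v c)), x ∈ IntermediateField.adjoin k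
        (Set.range (cellCoord (zfun u v c) 0 1 0) ∪ Set.range (extraX u v c))) := by
  have hP := plu_ne u v c h
  have hF := cub_ne u v c h
  have hmem := mem_all (k := k) u v c hP hF (IntermediateField.adjoin k
    (Set.range (cellCoord (zfun u v c) 0 1 0) ∪ Set.range (extraX u v c)))
    (fun a => IntermediateField.subset_adjoin k _ (Or.inl ⟨a, rfl⟩))
    (fun a => IntermediateField.subset_adjoin k _ (Or.inr ⟨a, rfl⟩))
  refine ⟨?_, hmem⟩
  refine algebraicIndependent_of_mem ?_ (Sum.elim u (Sum.elim v c)) _ h ?_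
  · rw [Nat.card_eq_fintype_card, Nat.card_eq_fintype_card]
    decide
  · intro i
    rw [Set.Sum.elim_range]
    exact hmem _ ⟨i, rfl⟩

end MP9a7843.FL
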