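import Mathlib

/-!
# MP_9a7843_ag, block FL: purely transcendental extensions
-/

namespace MP9a7843.FL

open Polynomial

/-- Statement FL19.  In a purely transcendental extension `k(y, w) / k(y)` the field `k(y)` is
algebraically closed.

PROOF.  `L := k(y)`; `w` is algebraically independent over `L`
(`AlgebraicIndependent.sumElim_iff`), `α ∈ L(w)` is
algebraic over `L`.  Choose a non zero `c ∈ L` with `c α` integral over `L` (here `c = 1`:
algebraic over a field);
so integral over `L[w] ≅ MvPolynomial ι' L`, integrally closed: `α = aeval w A`, `A` integral over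
`L`, so all
coefficients of degree > 0 vanish (`MvPolynomial` over a domain: an element integral over the
constants is a constant, e.g. by
total degree of powers, or because it is algebraic:
`MvPolynomial.algebraicIndependent_X`/`MvPolynomial.transcendental`...). -/
theorem mem_adjoin_of_sumElim {k M ι ι' : Type*} [Field k] [Field M] [Algebra k M] (y : ι → M)
    (w : ι' → M) (h : AlgebraicIndependent k (Sum.elim y w)) (α : M)
    (h1 : α ∈ IntermediateField.adjoin k (Set.range y ∪ Set.range w))
    (h2 : IsAlgebraic (IntermediateField.adjoin k (Set.range y)) α) :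
    α ∈ IntermediateField.adjoin k (Set.range y) := by
  obtain ⟨L, hL⟩ : ∃ L, L = IntermediateField.adjoin k (Set.range y) := ⟨_, rfl⟩
  have hw : AlgebraicIndependent L w := by
    have h3 : AlgebraicIndependent k (Sum.elim w y) := by
      have h4 := h.comp Sum.swap Sum.swap_leftInverse.injective
      have h5 : Sum.elim y w ∘ Sum.swap = Sum.elim w y := by
        funext i
        cases i <;> rfl
      rwa [h5] at h4
    rw [hL, IntermediateField.algebraicIndependent_adjoin_iff]
    exact (AlgebraicIndependent.sumElim_iff.1 h3).2
  rw [← hL] at h2 ⊢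
  have h1' : α ∈ IntermediateField.adjoin L (Set.range w) := by
    subst hL
    rw [← IntermediateField.adjoin_adjoin_left] at h1
    exact h1
  obtain ⟨r, s, hrs⟩ := (IntermediateField.mem_adjoin_range_iff L w α).1 h1'
  by_cases hs : MvPolynomial.aeval w s = 0
  · rw [hs, div_zero] at hrs
    rw [hrs]
    exact L.zero_mem
  · have h3 : α * MvPolynomial.aeval w s = MvPolynomial.aeval w r := by
      rw [hrs, div_mul_cancel₀ _ hs]
    obtain ⟨L', hL'⟩ : ∃ L', L' = algebraicClosure L M := ⟨_, rfl⟩
    have hw' : AlgebraicIndependent L' w := by
      rw [hL']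
      exact hw.algebraicClosure
    have hα : α ∈ L' := by
      rw [hL']
      exact mem_algebraicClosure_iff.2 h2
    have hmap : ∀ p : MvPolynomial ι' L,
        MvPolynomial.aeval w (MvPolynomial.map (algebraMap L L') p) = MvPolynomial.aeval w p := by
      intro p
      rw [MvPolynomial.aeval_map_algebraMap]
    have h4 : MvPolynomial.C (⟨α, hα⟩ : L') * MvPolynomial.map (algebraMap L L') s =
        MvPolynomial.map (algebraMap L L') r := by
      refine hw' ?_
      rw [map_mul, MvPolynomial.aeval_C, hmap, hmap]
      exact h3
    have hs0 : s ≠ 0 := by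
      rintro rfl
      exact hs (map_zero _)
    obtain ⟨m, hm⟩ := MvPolynomial.ne_zero_iff.1 hs0
    have h5 := congrArg (MvPolynomial.coeff m) h4
    rw [MvPolynomial.coeff_C_mul, MvPolynomial.coeff_map, MvPolynomial.coeff_map] at h5
    have h6 : α * ((MvPolynomial.coeff m s : L) : M) = ((MvPolynomial.coeff m r : L) : M) :=
      congrArg (fun x : L' => (x : M)) h5
    have hm' : ((MvPolynomial.coeff m s : L) : M) ≠ 0 := by
      intro h7
      exact hm (Subtype.ext h7)
    rw [eq_div_of_mul_eq hm' h6]
    exact L.div_mem (MvPolynomial.coeff m r).2 (MvPolynomial.coeff m s).2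

end MP9a7843.FL
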