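import Pool.Agent.Lib.MP_9a7843_ag_FL.Gen
import Pool.Agent.Lib.MP_9a7843_ag_A.Exports

/-!
# MP_9a7843_ag, block FL: the generic families of block A are generic in the sense of block FL
-/

noncomputable section

open Pool.Agent.MP9a7843

namespace MP9a7843.FL

open Polynomial

universe u

section

variable (k : Type u) [Field k] (σ : Type)

/-- The field over which the generic curve lives. -/
abbrev AC : Type u := AlgebraicClosure (CoefField k σ)

/-- The generic coefficients in the algebraically closed field. -/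
def acTh (s : σ) : AC k σ := algebraMap (CoefField k σ) (AC k σ) (genTh k σ s)

lemma acTh_indep : AlgebraicIndependent k (acTh k σ) := by
  have h1 : AlgebraicIndependent k (MvPolynomial.X : σ → MvPolynomial σ k) :=
    MvPolynomial.algebraicIndependent_X σ k
  have h2 : AlgebraicIndependent k (genTh k σ) :=
    h1.map' (f := IsScalarTower.toAlgHom k (MvPolynomial σ k) (CoefField k σ))
      (IsFractionRing.injective (MvPolynomial σ k) (CoefField k σ))
  exact h2.map' (f := IsScalarTower.toAlgHom k (CoefField k σ) (AC k σ))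
    (algebraMap (CoefField k σ) (AC k σ)).injective

lemma adjoin_genTh : IntermediateField.adjoin k (Set.range (genTh k σ)) = ⊤ := by
  rw [eq_top_iff]
  intro x _
  obtain ⟨a, b, _, rfl⟩ := IsFractionRing.div_surjective (A := MvPolynomial σ k) x
  have h : ∀ c : MvPolynomial σ k, algebraMap (MvPolynomial σ k) (CoefField k σ) c ∈
      IntermediateField.adjoin k (Set.range (genTh k σ)) := by
    intro c
    induction c using MvPolynomial.induction_on with
    | C a =>
      have : algebraMap (MvPolynomial σ k) (CoefField k σ) (MvPolynomial.C a) =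
          algebraMap k (CoefField k σ) a := by
        rw [← MvPolynomial.algebraMap_eq, ← IsScalarTower.algebraMap_apply]
      rw [this]
      exact IntermediateField.algebraMap_mem _ _
    | add p q hp hq => rw [map_add]; exact add_mem hp hq
    | mul_X p s hp =>
      rw [map_mul]
      exact mul_mem hp (IntermediateField.subset_adjoin k _ ⟨s, rfl⟩)
  exact div_mem (h a) (h b)

lemma acTh_alg :
    Algebra.IsAlgebraic (IntermediateField.adjoin k (Set.range (acTh k σ))) (AC k σ) := by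
  have h1 : Set.range (acTh k σ) =
      (IsScalarTower.toAlgHom k (CoefField k σ) (AC k σ)) '' (Set.range (genTh k σ)) := by
    rw [← Set.range_comp]
    rfl
  have h2 : IntermediateField.adjoin k (Set.range (acTh k σ)) =
      (IsScalarTower.toAlgHom k (CoefField k σ) (AC k σ)).fieldRange := by
    rw [h1, ← IntermediateField.adjoin_map, adjoin_genTh, AlgHom.fieldRange_eq_map]
  rw [h2]
  constructor
  intro x
  obtain ⟨P, hP, hx⟩ := Algebra.IsAlgebraic.isAlgebraic (R := CoefField k σ) x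
  let g : CoefField k σ →+* (IsScalarTower.toAlgHom k (CoefField k σ) (AC k σ)).fieldRange :=
    (IsScalarTower.toAlgHom k (CoefField k σ) (AC k σ)).toRingHom.rangeRestrict
  refine ⟨P.map g, (Polynomial.map_ne_zero_iff g.injective).2 hP, ?_⟩
  rw [aeval_def, eval₂_map]
  exact hx

end

/-- Statement FL25. -/
theorem genPoly_polyOf (k : Type u) [Field k] {S σ : Type} (d : S → ℕ) (hd : ∀ s, 1 ≤ d s)
    (e : (Σ s, Fin (d s + 1)) → σ) (he : Function.Bijective e) :
    GenPoly k d (fun s => polyOf fun j => acTh k σ (e ⟨s, j⟩)) := by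
  have hc : coef d (fun s => polyOf fun j => acTh k σ (e ⟨s, j⟩)) = acTh k σ ∘ e := by
    funext q
    obtain ⟨s, i⟩ := q
    simp only [coef, polyOf, finsetSum_coeff, coeff_C_mul, coeff_X_pow, Function.comp]
    rw [Finset.sum_eq_single i]
    · simp
    · intro j _ hj
      have : (i : ℕ) ≠ (j : ℕ) := fun h => hj (Fin.ext h.symm)
      simp [this]
    · simp
  refine ⟨hd, fun s => ?_, ?_, ?_⟩
  · refine natDegree_sum_le_of_forall_le _ _ fun j _ => ?_
    refine (natDegree_C_mul_X_pow_le _ _).trans ?_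
    omega
  · rw [hc]
    exact (acTh_indep k σ).comp e he.1
  · rw [hc, he.2.range_comp]
    exact acTh_alg k σ

/-- Index translation for `M_H`. -/
def idxH (b1 b2 n : ℕ) : (Σ s : Fin 10 ⊕ Fin 10 ⊕ Unit,
    Fin ((Sum.elim (fun _ => b1) (Sum.elim (fun _ => b2) (fun _ => n)) s : ℕ) + 1)) →
      SigH b1 b2 n
  | ⟨Sum.inl l, j⟩ => Sum.inl (l, j)
  | ⟨Sum.inr (Sum.inl l), j⟩ => Sum.inr (Sum.inl (l, j))
  | ⟨Sum.inr (Sum.inr ()), j⟩ => Sum.inr (Sum.inr j)

lemma idxH_bij (b1 b2 n : ℕ) : Function.Bijective (idxH b1 b2 n) := by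
  constructor
  · rintro ⟨s | s | s, i⟩ ⟨t | t | t, j⟩ h <;> simp [idxH] at h ⊢
    · obtain ⟨rfl, rfl⟩ := h
      simp
    · obtain ⟨rfl, rfl⟩ := h
      simp
    · exact h
  · rintro (⟨l, j⟩ | ⟨l, j⟩ | j)
    · exact ⟨⟨Sum.inl l, j⟩, rfl⟩
    · exact ⟨⟨Sum.inr (Sum.inl l), j⟩, rfl⟩
    · exact ⟨⟨Sum.inr (Sum.inr ()), j⟩, rfl⟩

/-- Index translation for `M_G`. -/
def idxG (b n : ℕ) : (Σ s : Fin 10 ⊕ Fin 10 ⊕ Fin 4,
    Fin ((Sum.elim (fun _ => b) (Sum.elim (fun _ => b) (fun _ => n)) s : ℕ) + 1)) → SigG b n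
  | ⟨Sum.inl l, j⟩ => Sum.inl (l, j)
  | ⟨Sum.inr (Sum.inl l), j⟩ => Sum.inr (Sum.inl (l, j))
  | ⟨Sum.inr (Sum.inr m), j⟩ => Sum.inr (Sum.inr (m, j))

lemma idxG_bij (b n : ℕ) : Function.Bijective (idxG b n) := by
  constructor
  · rintro ⟨s | s | s, i⟩ ⟨t | t | t, j⟩ h <;> simp [idxG] at h ⊢
    · obtain ⟨rfl, rfl⟩ := h
      simp
    · obtain ⟨rfl, rfl⟩ := h
      simp
    · obtain ⟨rfl, rfl⟩ := h
      simp
  · rintro (⟨l, j⟩ | ⟨l, j⟩ | ⟨m, j⟩)
    · exact ⟨⟨Sum.inl l, j⟩, rfl⟩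
    · exact ⟨⟨Sum.inr (Sum.inl l), j⟩, rfl⟩
    · exact ⟨⟨Sum.inr (Sum.inr m), j⟩, rfl⟩

end MP9a7843.FL
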