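import Pool.Agent.Lib.MP_9a7843_ag_FL.Main
import Pool.Agent.Lib.MP_9a7843_ag_FL.Pure
import Pool.Agent.Lib.MP_9a7843_ag_FL.IndX
import Pool.Agent.Lib.MP_9a7843_ag_FL.IndT
import Pool.Agent.Lib.MP_9a7843_ag_FL.Hom
import Pool.Agent.Lib.MP_9a7843_ag_FL.CellId
import Pool.Agent.Lib.MP_9a7843_ag_FL.Trans

/-!
# MP_9a7843_ag, block FL: common lemmas for the two exports
-/

noncomputable section

open Pool.Agent.MP9a7843

namespace MP9a7843.FL

open Polynomial

lemma map_cub {R S : Type*} [CommRing R] [CommRing S] (f : R →+* S) (u v : Fin 10 → R)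
    (c : Fin 4 → R) (a b d : Fin 10) :
    f (cub u v c a b d) = cub (fun l => f (u l)) (fun l => f (v l)) (fun m => f (c m)) a b d := by
  simp only [cub, map_add, map_mul]

lemma map_plu {R S : Type*} [CommRing R] [CommRing S] (f : R →+* S) (u v : Fin 10 → R)
    (d e : Fin 10) : f (plu u v d e) = plu (fun l => f (u l)) (fun l => f (v l)) d e := by
  simp only [plu, map_sub, map_mul]

lemma map_zfun {R S : Type*} [CommRing R] [CommRing S] (f : R →+* S) (u v : Fin 10 → R)
    (c : Fin 4 → R) (I : Idx) :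
    f (zfun u v c I) = zfun (fun l => f (u l)) (fun l => f (v l)) (fun m => f (c m)) I := by
  simp only [zfun, map_mul, map_cub, map_plu]

lemma zfun_mem {k M : Type*} [Field k] [Field M] [Algebra k M] (F : IntermediateField k M)
    (u v : Fin 10 → M) (c : Fin 4 → M) (hu : ∀ l, u l ∈ F) (hv : ∀ l, v l ∈ F)
    (hc : ∀ m, c m ∈ F) (I : Idx) : zfun u v c I ∈ F := by
  have h := map_zfun (algebraMap F M) (fun l => (⟨u l, hu l⟩ : F)) (fun l => (⟨v l, hv l⟩ : F))
    (fun m => (⟨c m, hc m⟩ : F)) I
  have h2 : zfun u v c I = algebraMap F M (zfun (fun l => (⟨u l, hu l⟩ : F))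
    (fun l => (⟨v l, hv l⟩ : F)) (fun m => (⟨c m, hc m⟩ : F)) I) := h.symm
  rw [h2]
  exact SetLike.coe_mem _

lemma cellCoord_mem {k M : Type*} [Field k] [Field M] [Algebra k M] (F : IntermediateField k M)
    (z : Idx → M) (i j : Fin 10) (m : Fin 4) (h : ∀ I J, z I / z J ∈ F) (s) :
    cellCoord z i j m s ∈ F := by
  rcases s with s | s | s <;> exact h _ _

lemma map_cellCoord {k L M : Type*} [Field k] [Field L] [Field M] [Algebra k L] [Algebra k M]
    (lam : L →ₐ[k] M) (z : Idx → L) (m : Idx → M) (h : ∀ I J, lam (z I / z J) = m I / m J)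
    (i j : Fin 10) (n : Fin 4) (s) :
    lam (cellCoord z i j n s) = cellCoord m i j n s := by
  rcases s with s | s | s <;> exact h _ _

/-- Transport of algebraicity along a homomorphism. -/
lemma isAlgebraic_map {k L M : Type*} [Field k] [Field L] [Field M] [Algebra k L] [Algebra k M]
    (lam : L →ₐ[k] M) (A : Set L) (F : IntermediateField k M) (h : ∀ a ∈ A, lam a ∈ F) (y : L)
    (hy : IsAlgebraic (IntermediateField.adjoin k A) y) : IsAlgebraic F (lam y) := by
  have hmap : ∀ x ∈ IntermediateField.adjoin k A, lam x ∈ F := by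
    have : IntermediateField.adjoin k A ≤ F.comap lam := by
      rw [IntermediateField.adjoin_le_iff]
      exact h
    exact this
  obtain ⟨P, hP, hx⟩ := hy
  let g : IntermediateField.adjoin k A →+* F :=
    { toFun := fun x => ⟨lam x, hmap x x.2⟩
      map_one' := by ext; simp
      map_mul' := by intro a b; ext; simp
      map_zero' := by ext; simp
      map_add' := by intro a b; ext; simp }
  refine ⟨P.map g, (Polynomial.map_ne_zero_iff g.injective).2 hP, ?_⟩
  rw [aeval_def, eval₂_map]
  have h2 : (algebraMap F M).comp g =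
      (lam : L →+* M).comp (algebraMap (IntermediateField.adjoin k A) L) := by
    ext x
    rfl
  rw [h2]
  have h3 := congrArg (lam : L →+* M) hx
  rw [aeval_def, hom_eval₂, map_zero] at h3
  exact h3

/-- The field lemma for `X`: `k(cell coordinates)` is algebraically closed in `W(X)`. -/
theorem memX {k W : Type*} [Field k] [IsAlgClosed k] [CharZero k] [Field W] [IsAlgClosed W]
    [Algebra k W] (d : Fin 10 ⊕ Fin 10 ⊕ Fin 4 → ℕ) (pu pv : Fin 10 → W[X]) (pc : Fin 4 → W[X])
    (hp : GenPoly k d (Sum.elim pu (Sum.elim pv pc))) (θ : RatFunc W)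
    (hθ : IsAlgebraic (IntermediateField.adjoin k
      (Set.range (cellCoord (zfun (ratP pu) (ratP pv) (ratP pc)) 0 1 0))) θ) :
    θ ∈ IntermediateField.adjoin k
      (Set.range (cellCoord (zfun (ratP pu) (ratP pv) (ratP pc)) 0 1 0)) := by
  have hrat : ratP (Sum.elim pu (Sum.elim pv pc)) =
      Sum.elim (ratP pu) (Sum.elim (ratP pv) (ratP pc)) := by
    funext s
    rcases s with s | s | s <;> rfl
  have hind : AlgebraicIndependent k (Sum.elim (ratP pu) (Sum.elim (ratP pv) (ratP pc))) := by
    rw [← hrat]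
    exact ratP_indep hp
  obtain ⟨h1, h2⟩ := indepX _ _ _ hind
  apply mem_adjoin_of_sumElim _ _ h1 θ _ hθ
  -- `θ ∈ k(ratP)`
  have hle : IntermediateField.adjoin k
      (Set.range (cellCoord (zfun (ratP pu) (ratP pv) (ratP pc)) 0 1 0)) ≤
      IntermediateField.adjoin k (Set.range (ratP (Sum.elim pu (Sum.elim pv pc)))) := by
    rw [IntermediateField.adjoin_le_iff]
    rintro _ ⟨s, rfl⟩
    apply cellCoord_mem
    intro I J
    apply div_mem <;>
    · apply zfun_mem
      · intro l
        exact IntermediateField.subset_adjoin k _ ⟨Sum.inl l, rfl⟩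
      · intro l
        exact IntermediateField.subset_adjoin k _ ⟨Sum.inr (Sum.inl l), rfl⟩
      · intro l
        exact IntermediateField.subset_adjoin k _ ⟨Sum.inr (Sum.inr l), rfl⟩
  have hθ2 : IsAlgebraic (IntermediateField.adjoin k
      (Set.range (ratP (Sum.elim pu (Sum.elim pv pc))))) θ := by
    have := isAlgebraic_map (AlgHom.id k (RatFunc W)) _ _
      (fun a ha => hle (IntermediateField.subset_adjoin k _ ha)) θ hθ
    exact this
  have h3 := mem_adjoin_ratP hp θ hθ2
  have h4 : IntermediateField.adjoin k (Set.range (ratP (Sum.elim pu (Sum.elim pv pc)))) ≤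
      IntermediateField.adjoin k
      (Set.range (cellCoord (zfun (ratP pu) (ratP pv) (ratP pc)) 0 1 0) ∪
        Set.range (extraX (ratP pu) (ratP pv) (ratP pc))) := by
    rw [IntermediateField.adjoin_le_iff, hrat]
    exact h2
  exact h4 h3

lemma tCoord_mem {k M : Type*} [Field k] [Field M] [Algebra k M] (F : IntermediateField k M)
    (u v : Fin 10 → M) (a : M) (hu : ∀ l, u l ∈ F) (hv : ∀ l, v l ∈ F) (ha : a ∈ F)
    (i j : Fin 10) (s) : tCoord u v a i j s ∈ F := by
  have hp : ∀ d e, plu u v d e ∈ F := fun d e => sub_mem (mul_mem (hu _) (hv _))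
    (mul_mem (hu _) (hv _))
  rcases s with s | s | s
  · exact div_mem (hu _) (hu _)
  · exact div_mem (hp _ _) (hp _ _)
  · fin_cases s
    · exact div_mem (mul_mem (hv _) (hu _)) (hp _ _)
    · exact div_mem (mul_mem ha (pow_mem (hu _) 4)) (pow_mem (hp _ _) 2)

/-- The field lemma for `T`. -/
theorem memT {k W : Type*} [Field k] [IsAlgClosed k] [CharZero k] [Field W] [IsAlgClosed W]
    [Algebra k W] (d : Fin 10 ⊕ Fin 10 ⊕ Unit → ℕ) (pu pv : Fin 10 → W[X]) (pa : W[X])
    (hp : GenPoly k d (Sum.elim pu (Sum.elim pv (fun _ => pa)))) (θ : RatFunc W)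
    (hθ : IsAlgebraic (IntermediateField.adjoin k
      (Set.range (tCoord (ratP pu) (ratP pv) (algebraMap W[X] (RatFunc W) pa) 0 1))) θ) :
    θ ∈ IntermediateField.adjoin k
      (Set.range (tCoord (ratP pu) (ratP pv) (algebraMap W[X] (RatFunc W) pa) 0 1)) := by
  have hrat : ratP (Sum.elim pu (Sum.elim pv (fun _ : Unit => pa))) =
      Sum.elim (ratP pu) (Sum.elim (ratP pv) (fun _ => algebraMap W[X] (RatFunc W) pa)) := by
    funext s
    rcases s with s | s | s <;> rfl
  have hind : AlgebraicIndependent k (Sum.elim (ratP pu) (Sum.elim (ratP pv)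
      (fun _ : Unit => algebraMap W[X] (RatFunc W) pa))) := by
    rw [← hrat]
    exact ratP_indep hp
  obtain ⟨h1, h2⟩ := indepT _ _ _ hind
  apply mem_adjoin_of_sumElim _ _ h1 θ _ hθ
  have hle : IntermediateField.adjoin k
      (Set.range (tCoord (ratP pu) (ratP pv) (algebraMap W[X] (RatFunc W) pa) 0 1)) ≤
      IntermediateField.adjoin k
        (Set.range (ratP (Sum.elim pu (Sum.elim pv (fun _ : Unit => pa))))) := by
    rw [IntermediateField.adjoin_le_iff]
    rintro _ ⟨s, rfl⟩
    apply tCoord_mem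
    · intro l
      exact IntermediateField.subset_adjoin k _ ⟨Sum.inl l, rfl⟩
    · intro l
      exact IntermediateField.subset_adjoin k _ ⟨Sum.inr (Sum.inl l), rfl⟩
    · exact IntermediateField.subset_adjoin k _ ⟨Sum.inr (Sum.inr ()), rfl⟩
  have hθ2 : IsAlgebraic (IntermediateField.adjoin k
      (Set.range (ratP (Sum.elim pu (Sum.elim pv (fun _ : Unit => pa)))))) θ := by
    have := isAlgebraic_map (AlgHom.id k (RatFunc W)) _ _
      (fun a ha => hle (IntermediateField.subset_adjoin k _ ha)) θ hθ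
    exact this
  have h3 := mem_adjoin_ratP hp θ hθ2
  have h4 : IntermediateField.adjoin k
      (Set.range (ratP (Sum.elim pu (Sum.elim pv (fun _ : Unit => pa))))) ≤
      IntermediateField.adjoin k
      (Set.range (tCoord (ratP pu) (ratP pv) (algebraMap W[X] (RatFunc W) pa) 0 1) ∪
        Set.range (extraT (ratP pu) (ratP pv))) := by
    rw [IntermediateField.adjoin_le_iff, hrat]
    exact h2
  exact h4 h3

end MP9a7843.FL
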