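import Pool.Agent.Lib.MP_9a7843_ag_FL.Spec

/-!
# MP_9a7843_ag, block FL: separation of variables
-/

namespace MP9a7843.FL

open MvPolynomial

/-- Statement FL7.  Separation of variables: `b`, `c` together are algebraically independent over
the
algebraically closed field `k`; `α` is algebraic over `k(b)`, `β` is algebraic over `k(c)`, and
`α ∈ k(b, c, β)`.  Then `α ∈ k(b)`.

PROOF.  `L := k(c)(β)` is algebraic over `k(c)`, so `b` is algebraically independent over `L`
(`AlgebraicIndependent.sumElim_iff`, `.extendScalars` and passing from the ring `adjoin` to the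
field), and `α ∈ L(b)`: FL6. -/
theorem mem_adjoin_of_mem_adjoin {k W I J : Type*} [Field k] [IsAlgClosed k] [Field W] [Algebra k W]
    (b : I → W) (c : J → W) (hbc : AlgebraicIndependent k (Sum.elim b c)) (α β : W)
    (hα : IsAlgebraic (IntermediateField.adjoin k (Set.range b)) α)
    (hβ : IsAlgebraic (IntermediateField.adjoin k (Set.range c)) β)
    (h : α ∈ IntermediateField.adjoin k (Set.range b ∪ Set.range c ∪ {β})) :
    α ∈ IntermediateField.adjoin k (Set.range b) := by
  obtain ⟨K, hK1, hK2, hK3⟩ : ∃ K : IntermediateField k W, (∀ x ∈ Set.range c, x ∈ K) ∧ β ∈ K ∧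
      AlgebraicIndependent K b := by
    have h1 : AlgebraicIndependent (IntermediateField.adjoin k (Set.range c)) b :=
      IntermediateField.algebraicIndependent_adjoin_iff.2
        (AlgebraicIndependent.sumElim_iff.1 hbc).2
    have hal : Algebra.IsAlgebraic (IntermediateField.adjoin k (Set.range c))
        (IntermediateField.adjoin (IntermediateField.adjoin k (Set.range c)) {β}) :=
      IntermediateField.isAlgebraic_adjoin_simple hβ.isIntegral
    have h2 : AlgebraicIndependent
        (IntermediateField.adjoin (IntermediateField.adjoin k (Set.range c)) {β}) b :=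
      h1.extendScalars _
    refine ⟨(IntermediateField.adjoin (IntermediateField.adjoin k
      (Set.range c)) {β}).restrictScalars k, fun x hx => ?_, ?_, h2⟩
    · have hxF : x ∈ IntermediateField.adjoin k (Set.range c) :=
        IntermediateField.subset_adjoin _ _ hx
      exact (IntermediateField.adjoin (IntermediateField.adjoin k
        (Set.range c)) {β}).algebraMap_mem ⟨x, hxF⟩
    · exact IntermediateField.subset_adjoin (IntermediateField.adjoin k (Set.range c)) {β}
        (Set.mem_singleton β)
  refine mem_adjoin_of_isAlgebraic K b hK3 α ?_ hα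
  have hKm : ∀ x ∈ K, x ∈ (IntermediateField.adjoin K (Set.range b)).restrictScalars k := by
    intro x hx
    exact (IntermediateField.adjoin K (Set.range b)).algebraMap_mem ⟨x, hx⟩
  have hle : IntermediateField.adjoin k (Set.range b ∪ Set.range c ∪ {β}) ≤
      (IntermediateField.adjoin K (Set.range b)).restrictScalars k := by
    rw [IntermediateField.adjoin_le_iff]
    rintro x ((hx | hx) | hx)
    · exact IntermediateField.subset_adjoin K (Set.range b) hx
    · exact hKm x (hK1 x hx)
    · rw [Set.mem_singleton_iff] at hx
      rw [hx]
      exact hKm β hK2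
  exact hle h

end MP9a7843.FL
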