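import Pool.Agent.Lib.MP_9a7843_ag_FL.Gen
import Pool.Agent.Lib.MP_9a7843_ag_FL.Card
import Pool.Agent.Lib.MP_9a7843_ag_FL.Sep

/-!
# MP_9a7843_ag, block FL: change of coordinates
-/

namespace MP9a7843.FL

open Polynomial

/-- Statement FL9.  `coord` is a linear change of coordinates.

PROOF.  `(p s).eval 1 = ∑_{i ≤ d s} coeff i` (`eval_eq_sum_range'`), so the coefficient of `X` is
`eval 1 - ∑_{i ≠ 1}`. -/
theorem adjoin_coord {k W S : Type*} [Field k] [Field W] [Algebra k W] (d : S → ℕ)
    (p : S → W[X]) (hd : ∀ s, 1 ≤ d s) (hp : ∀ s, (p s).natDegree ≤ d s) :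
    IntermediateField.adjoin k (Set.range (coord d p)) =
      IntermediateField.adjoin k (Set.range (coef d p)) := by
  have hev : ∀ s, (p s).eval 1 = ∑ i ∈ Finset.range (d s + 1), (p s).coeff i := by
    intro s
    rw [eval_eq_sum_range' (Nat.lt_succ_of_le (hp s))]
    simp
  apply le_antisymm
  · rw [IntermediateField.adjoin_le_iff]
    rintro _ ⟨q, rfl⟩
    by_cases hq : (q.2 : ℕ) = 1
    · rw [coord, if_pos hq, hev]
      refine sum_mem fun i hi => ?_
      exact IntermediateField.subset_adjoin k _ ⟨⟨q.1, ⟨i, Finset.mem_range.1 hi⟩⟩, rfl⟩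
    · rw [coord, if_neg hq]
      exact IntermediateField.subset_adjoin k _ ⟨q, rfl⟩
  · rw [IntermediateField.adjoin_le_iff]
    rintro _ ⟨q, rfl⟩
    have h1 : ∀ q : Σ s, Fin (d s + 1), (q.2 : ℕ) ≠ 1 →
        coef d p q ∈ IntermediateField.adjoin k (Set.range (coord d p)) := by
      intro q hq
      refine IntermediateField.subset_adjoin k _ ⟨q, ?_⟩
      rw [coord, if_neg hq, coef]
    by_cases hq : (q.2 : ℕ) = 1
    · have h2 : coef d p q = (p q.1).eval 1 -
          ∑ i ∈ (Finset.range (d q.1 + 1)).erase 1, (p q.1).coeff i := by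
        rw [hev, ← Finset.add_sum_erase _ _
          (Finset.mem_range.2 (Nat.lt_succ_of_le (hd q.1)) : 1 ∈ Finset.range (d q.1 + 1)),
          add_sub_cancel_right, coef, hq]
      rw [h2]
      refine sub_mem ?_ (sum_mem fun i hi => ?_)
      · refine IntermediateField.subset_adjoin k _ ⟨q, ?_⟩
        rw [coord, if_pos hq]
      · obtain ⟨hi1, hi2⟩ := Finset.mem_erase.1 hi
        exact h1 ⟨q.1, ⟨i, Finset.mem_range.1 hi2⟩⟩ hi1
    · exact h1 q hq

/-- Statement FL10.

PROOF.  FL8 and FL9. -/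
theorem coord_indep {k W S : Type*} [Field k] [Field W] [Algebra k W] [Finite S] {d : S → ℕ}
    {p : S → W[X]} (hp : GenPoly k d p) : AlgebraicIndependent k (coord d p) := by
  refine algebraicIndependent_of_mem rfl (coef d p) (coord d p) hp.indep fun i => ?_
  rw [adjoin_coord d p hp.pos hp.deg]
  exact IntermediateField.subset_adjoin k _ ⟨i, rfl⟩

private theorem coord_zero {W S : Type*} [Field W] (d : S → ℕ) (p : S → W[X]) (s : S) :
    coord d p ⟨s, 0⟩ = (p s).eval 0 := by
  rw [coord, if_neg (by simp), ← coeff_zero_eq_eval_zero]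
  simp

private theorem coord_one {W S : Type*} [Field W] (d : S → ℕ) (p : S → W[X]) (s : S)
    (h : 1 < d s + 1) : coord d p ⟨s, ⟨1, h⟩⟩ = (p s).eval 1 := by
  rw [coord, if_pos rfl]

/-- Statement FL11.

PROOF.  `(p s).eval 0 = coord ⟨s, 0⟩`: subfamily of FL10 (`AlgebraicIndependent.comp`). -/
theorem eval_zero_indep {k W S : Type*} [Field k] [Field W] [Algebra k W] [Finite S] {d : S → ℕ}
    {p : S → W[X]} (hp : GenPoly k d p) :
    AlgebraicIndependent k (fun s => (p s).eval 0) := by
  have h1 := (coord_indep hp).comp (fun s => (⟨s, 0⟩ : Σ s, Fin (d s + 1)))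
    (fun s s' h => congrArg Sigma.fst h)
  have h2 : (fun s => (p s).eval 0) = coord d p ∘ (fun s => (⟨s, 0⟩ : Σ s, Fin (d s + 1))) := by
    funext s
    exact (coord_zero d p s).symm
  rw [h2]
  exact h1

/-- Statement FL12.

PROOF.  `(p s).eval 1 = coord ⟨s, 1⟩` (`d s ≥ 1`): subfamily of FL10. -/
theorem eval_one_indep {k W S : Type*} [Field k] [Field W] [Algebra k W] [Finite S] {d : S → ℕ}
    {p : S → W[X]} (hp : GenPoly k d p) :
    AlgebraicIndependent k (fun s => (p s).eval 1) := by
  have h0 : ∀ s, 1 < d s + 1 := fun s => Nat.lt_succ_of_le (hp.pos s)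
  have h1 := (coord_indep hp).comp (fun s => (⟨s, ⟨1, h0 s⟩⟩ : Σ s, Fin (d s + 1)))
    (fun s s' h => congrArg Sigma.fst h)
  have h2 : (fun s => (p s).eval 1) =
      coord d p ∘ (fun s => (⟨s, ⟨1, h0 s⟩⟩ : Σ s, Fin (d s + 1))) := by
    funext s
    exact (coord_one d p s (h0 s)).symm
  rw [h2]
  exact h1

private theorem coord_isAlgebraic_mono {k W : Type*} [Field k] [Field W] [Algebra k W]
    {K L : IntermediateField k W} (h : K ≤ L) {x : W} (hx : IsAlgebraic K x) :
    IsAlgebraic L x := by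
  obtain ⟨f, hf0, hf⟩ := hx
  refine ⟨f.map (IntermediateField.inclusion h).toRingHom, ?_, ?_⟩
  · exact (Polynomial.map_ne_zero_iff (RingHom.injective _)).2 hf0
  · rw [aeval_def, eval₂_map]
    rw [aeval_def] at hf
    exact hf

/-- Statement FL13.  Let `α` be algebraic over `k(p(0))`, `β` algebraic over `k(p(1))` and
`α ∈ 𝒦(β)`, `𝒦` the field generated by all coefficients.  Then `α ∈ k(p(0))`.

PROOF.  FL7 with `b = (coord (s, 0))_s` and `c = (coord q)`, `q.2 ≠ 0` (index type the subtype); the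
field `𝒦` is `k(coord)` by FL9; `k(p(1)) ⊂ k(c)`. -/
theorem mem_adjoin_eval_zero {k W S : Type*} [Field k] [IsAlgClosed k] [Field W] [Algebra k W]
    [Finite S] {d : S → ℕ} {p : S → W[X]} (hp : GenPoly k d p) (α β : W)
    (hα : IsAlgebraic (IntermediateField.adjoin k (Set.range fun s => (p s).eval 0)) α)
    (hβ : IsAlgebraic (IntermediateField.adjoin k (Set.range fun s => (p s).eval 1)) β)
    (h : α ∈ IntermediateField.adjoin k (Set.range (coef d p) ∪ {β})) :
    α ∈ IntermediateField.adjoin k (Set.range fun s => (p s).eval 0) := by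
  have h0 : ∀ s, 1 < d s + 1 := fun s => Nat.lt_succ_of_le (hp.pos s)
  obtain ⟨c, hc⟩ : ∃ c : {q : Σ s, Fin (d s + 1) // (q.2 : ℕ) ≠ 0} → W,
      ∀ q, c q = coord d p q.1 := ⟨fun q => coord d p q.1, fun _ => rfl⟩
  have hbc : AlgebraicIndependent k (Sum.elim (fun s => (p s).eval 0) c) := by
    have h1 := (coord_indep hp).comp
      (Sum.elim (fun s => (⟨s, 0⟩ : Σ s, Fin (d s + 1)))
        (fun q : {q : Σ s, Fin (d s + 1) // (q.2 : ℕ) ≠ 0} => q.1)) (by
        rintro (s | q) (s' | q') hqq
        · exact congrArg Sum.inl (congrArg Sigma.fst hqq)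
        · exfalso
          apply q'.2
          have hqq' : (⟨s, 0⟩ : Σ s, Fin (d s + 1)) = q'.1 := hqq
          rw [← hqq']
          simp
        · exfalso
          apply q.2
          have hqq' : q.1 = (⟨s', 0⟩ : Σ s, Fin (d s + 1)) := hqq
          rw [hqq']
          simp
        · exact congrArg Sum.inr (Subtype.ext hqq))
    have h2 : Sum.elim (fun s => (p s).eval 0) c = coord d p ∘
        (Sum.elim (fun s => (⟨s, 0⟩ : Σ s, Fin (d s + 1)))
          (fun q : {q : Σ s, Fin (d s + 1) // (q.2 : ℕ) ≠ 0} => q.1)) := by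
      funext x
      rcases x with s | q
      · exact (coord_zero d p s).symm
      · exact hc q
    rw [h2]
    exact h1
  refine mem_adjoin_of_mem_adjoin (fun s => (p s).eval 0) c hbc α β hα ?_ ?_
  · refine coord_isAlgebraic_mono (IntermediateField.adjoin.mono _ _ _ ?_) hβ
    rintro _ ⟨s, rfl⟩
    refine ⟨⟨⟨s, ⟨1, h0 s⟩⟩, one_ne_zero⟩, ?_⟩
    rw [hc]
    exact coord_one d p s (h0 s)
  · have hle : IntermediateField.adjoin k (Set.range (coef d p) ∪ {β}) ≤
        IntermediateField.adjoin k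
          ((Set.range fun s => (p s).eval 0) ∪ Set.range c ∪ {β}) := by
      rw [IntermediateField.adjoin_le_iff]
      rintro x (hx | hx)
      · have h1 : x ∈ IntermediateField.adjoin k (Set.range (coord d p)) := by
          rw [adjoin_coord d p hp.pos hp.deg]
          exact IntermediateField.subset_adjoin k _ hx
        refine (IntermediateField.adjoin.mono _ _ _ ?_) h1
        rintro _ ⟨⟨s, i⟩, rfl⟩
        left
        by_cases hi : (i : ℕ) = 0
        · left
          refine ⟨s, ?_⟩
          rw [show i = 0 from Fin.ext hi]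
          exact (coord_zero d p s).symm
        · right
          exact ⟨⟨⟨s, i⟩, hi⟩, hc _⟩
      · exact IntermediateField.subset_adjoin k _ (Or.inr hx)
    exact hle h

end MP9a7843.FL
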