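import Mathlib

/-!
# MP_9a7843_ag, block FL: irreducible monic polynomials over an integrally closed domain
-/

namespace MP9a7843.FL

open Polynomial

/-- Statement FL1.  A root (in a field `F` containing `R`) of an irreducible monic polynomial over
an
integrally closed domain of characteristic `0` is a simple root.

PROOF.  By Gauss (`Polynomial.Monic.irreducible_iff_irreducible_map_fraction_map`) the image of `Φ`
in `(Frac R)[X]` is irreducible, so separable (`Irreducible.separable`, char 0), and `ψ` extends to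
`Frac R → F` (`IsFractionRing.lift`/`IsLocalization.lift`); use
`Polynomial.Separable.eval₂_derivative_ne_zero`
(or: a coprimality relation `A Φ + B Φ' = 1` over `Frac R`, evaluated at `y`). -/
theorem derivative_ne_zero {R F : Type*} [CommRing R] [IsDomain R] [IsIntegrallyClosed R]
    [CharZero R] [Field F] (ψ : R →+* F) (hψ : Function.Injective ψ) (Φ : R[X]) (hm : Φ.Monic)
    (hi : Irreducible Φ) (y : F) (hy : Φ.eval₂ ψ y = 0) : Φ.derivative.eval₂ ψ y ≠ 0 := by
  obtain ⟨K, hK, hA, hF⟩ : ∃ (K : Type _) (_ : Field K) (_ : Algebra R K), IsFractionRing R K :=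
    ⟨FractionRing R, inferInstance, inferInstance, inferInstance⟩
  have hi' : Irreducible (Φ.map (algebraMap R K)) :=
    (hm.irreducible_iff_irreducible_map_fraction_map (K := K)).1 hi
  haveI : CharZero K := charZero_of_injective_algebraMap (IsFractionRing.injective R K)
  obtain ⟨a, b, hab⟩ := hi'.separable
  intro hd
  have hσ : (IsFractionRing.lift (K := K) hψ).comp (algebraMap R K) = ψ := by
    ext x
    simp
  have h1 := congrArg (Polynomial.eval₂ (IsFractionRing.lift (K := K) hψ) y) hab
  rw [Polynomial.eval₂_add, Polynomial.eval₂_mul, Polynomial.eval₂_mul, Polynomial.derivative_map,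
    Polynomial.eval₂_map, Polynomial.eval₂_map, hσ, hy, hd, mul_zero, mul_zero, add_zero,
    Polynomial.eval₂_one] at h1
  exact zero_ne_one h1

/-- Statement FL2.  If an irreducible monic polynomial over an integrally closed domain `R` has a
root `ψ g / ψ h` in the fraction field of `ψ(R)`, then it is linear.

PROOF.  `ψ g / ψ h` is integral over `R`; `g / h ∈ Frac R` is a root of `Φ`, hence `g / h = g'` for
some `g' ∈ R` (`IsIntegrallyClosed`), so `Φ(g') = 0`, `X - C g' ∣ Φ`, `Φ` irreducible and monic. -/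
theorem eq_X_sub_C {R F : Type*} [CommRing R] [IsDomain R] [IsIntegrallyClosed R]
    [Field F] (ψ : R →+* F) (hψ : Function.Injective ψ) (Φ : R[X]) (hm : Φ.Monic)
    (hi : Irreducible Φ) (g h : R) (hh : h ≠ 0) (hy : Φ.eval₂ ψ (ψ g / ψ h) = 0) :
    ∃ g' : R, Φ = X - C g' := by
  obtain ⟨K, hK, hA, hF⟩ : ∃ (K : Type _) (_ : Field K) (_ : Algebra R K), IsFractionRing R K :=
    ⟨FractionRing R, inferInstance, inferInstance, inferInstance⟩
  have hσ : (IsFractionRing.lift (K := K) hψ).comp (algebraMap R K) = ψ := by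
    ext x
    simp
  have h1 : Φ.eval₂ (algebraMap R K) (algebraMap R K g / algebraMap R K h) = 0 := by
    apply (IsFractionRing.lift (K := K) hψ).injective
    rw [map_zero, Polynomial.hom_eval₂, hσ, map_div₀]
    have h2 : ∀ x, (IsFractionRing.lift (K := K) hψ) (algebraMap R K x) = ψ x := fun x => by simp
    rw [h2, h2, hy]
  have h3 : IsIntegral R (algebraMap R K g / algebraMap R K h) := ⟨Φ, hm, h1⟩
  obtain ⟨g', hg'⟩ := IsIntegrallyClosed.isIntegral_iff.1 h3
  refine ⟨g', ?_⟩
  rw [← hg', Polynomial.eval₂_at_apply] at h1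
  have h4 : Φ.eval g' = 0 := IsFractionRing.injective R K (by rw [h1, map_zero])
  obtain ⟨q, hq⟩ := Polynomial.dvd_iff_isRoot.2 h4
  have h5 : IsUnit q := (hi.isUnit_or_isUnit hq).resolve_left (Polynomial.not_isUnit_X_sub_C g')
  have h6 : Associated (X - C g') Φ := by
    rw [hq]
    exact (associated_mul_unit_right _ _ h5)
  exact (Polynomial.eq_of_monic_of_associated (Polynomial.monic_X_sub_C g') hm h6).symm

/-- Statement FL3.  Integral elements have irreducible monic equations.

PROOF.  `minpoly.irreducible`, `minpoly.monic` for the algebra structure `ψ.toAlgebra`. -/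
theorem exists_irreducible {R B : Type*} [CommRing R] [IsDomain R] [CommRing B] [IsDomain B]
    (ψ : R →+* B) (x : B) (hx : ψ.IsIntegralElem x) :
    ∃ Φ : R[X], Φ.Monic ∧ Irreducible Φ ∧ Φ.eval₂ ψ x = 0 := by
  letI := ψ.toAlgebra
  have h : IsIntegral R x := hx
  exact ⟨minpoly R x, minpoly.monic h, minpoly.irreducible h, minpoly.aeval R x⟩

/-- Statement FL4.  Let `Φ` be monic irreducible over `R` and let `θ`, `θ'` be two roots of `Φ` in
the domain `B ⊃ R`.  If `θ` and `θ'` have the same image under a homomorphism `e : B → F` to a field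
that is injective on `R`, then `θ = θ'`.

PROOF.  `Polynomial.binomExpansion` (or `Polynomial.evalSubFactor` twice) for `Φ.map ψ`:
`0 = Φ(θ') = Φ(θ) + Φ'(θ) (θ'-θ) + c (θ'-θ)^2`, so if `θ ≠ θ'` then `Φ'(θ) + c (θ'-θ) = 0`; apply
`e`:
`Φ'(e θ) = 0`, contradicting FL1. -/
theorem eq_of_eval_eq {R B F : Type*} [CommRing R] [IsDomain R] [IsIntegrallyClosed R] [CharZero R]
    [CommRing B] [IsDomain B] [Field F] (ψ : R →+* B) (e : B →+* F)
    (he : Function.Injective (e.comp ψ)) (Φ : R[X]) (hm : Φ.Monic) (hi : Irreducible Φ)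
    (θ θ' : B) (h : Φ.eval₂ ψ θ = 0) (h' : Φ.eval₂ ψ θ' = 0) (hee : e θ = e θ') : θ = θ' := by
  by_contra hne
  obtain ⟨k, hk⟩ := Polynomial.binomExpansion (Φ.map ψ) θ (θ' - θ)
  rw [add_sub_cancel, Polynomial.eval_map, Polynomial.eval_map, h, h', zero_add,
    Polynomial.derivative_map, Polynomial.eval_map] at hk
  have h1 : θ' - θ ≠ 0 := fun h0 => hne (sub_eq_zero.1 h0).symm
  have h2 : (Φ.derivative.eval₂ ψ θ + k * (θ' - θ)) * (θ' - θ) = 0 := by
    rw [hk]
    ring
  have h3 := (mul_eq_zero.1 h2).resolve_right h1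
  have h4 := congrArg e h3
  rw [map_add, map_mul, map_sub, hee, sub_self, mul_zero, add_zero, map_zero,
    Polynomial.hom_eval₂] at h4
  refine derivative_ne_zero (e.comp ψ) he Φ hm hi (e θ) ?_ h4
  rw [← Polynomial.hom_eval₂, h, map_zero]

end MP9a7843.FL
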