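import Mathlib

/-!
# MP_9a7843_ag, block FL: elements fixed by automorphisms
-/

namespace MP9a7843.FL

open Polynomial

/-- Statement FL14.  If every automorphism of `W` over `𝒦` that fixes `β` fixes `α`, then
`α ∈ 𝒦(β)`.  (`𝒦 = k(T)`.)

PROOF.  `W` is algebraic over `k(T ∪ {β})`, algebraically closed and of characteristic `0`, hence
Galois over it; an element fixed by all `W ≃ₐ[k(T ∪ {β})] W` is in the base field
(`InfiniteGalois.mem_bot_iff_fixed` or `IsGalois.mem_bot_iff_fixed`). -/
theorem mem_adjoin_of_fixed {k W : Type*} [Field k] [CharZero k] [Field W] [IsAlgClosed W]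
    [Algebra k W] (T : Set W) (hT : Algebra.IsAlgebraic (IntermediateField.adjoin k T) W) (α β : W)
    (h : ∀ σ : W ≃ₐ[k] W, (∀ x ∈ IntermediateField.adjoin k T, σ x = x) → σ β = β → σ α = α) :
    α ∈ IntermediateField.adjoin k (T ∪ {β}) := by
  have hle : IntermediateField.adjoin k T ≤ IntermediateField.adjoin k (T ∪ {β}) :=
    IntermediateField.adjoin.mono k T (T ∪ {β}) Set.subset_union_left
  have hβ : β ∈ IntermediateField.adjoin k (T ∪ {β}) :=
    IntermediateField.subset_adjoin k (T ∪ {β}) (Or.inr rfl)
  let _ : Algebra (IntermediateField.adjoin k T) (IntermediateField.adjoin k (T ∪ {β})) :=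
    (IntermediateField.inclusion hle).toRingHom.toAlgebra
  have : IsScalarTower (IntermediateField.adjoin k T)
      (IntermediateField.adjoin k (T ∪ {β})) W :=
    IsScalarTower.of_algebraMap_eq fun x => rfl
  have hA : Algebra.IsAlgebraic (IntermediateField.adjoin k (T ∪ {β})) W :=
    Algebra.IsAlgebraic.tower_top (K := IntermediateField.adjoin k T)
      (IntermediateField.adjoin k (T ∪ {β}))
  have hC : IsAlgClosure (IntermediateField.adjoin k (T ∪ {β})) W := ⟨inferInstance, hA⟩
  have hG : IsGalois (IntermediateField.adjoin k (T ∪ {β})) W :=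
    { to_isSeparable := Algebra.IsAlgebraic.isSeparable_of_perfectField
      to_normal := IsAlgClosure.normal _ W }
  have h1 : α ∈ (⊥ : IntermediateField (IntermediateField.adjoin k (T ∪ {β})) W) := by
    rw [InfiniteGalois.mem_bot_iff_fixed]
    intro f
    refine h (f.restrictScalars k) (fun x hx => ?_) ?_
    · exact f.commutes ⟨x, hle hx⟩
    · exact f.commutes ⟨β, hβ⟩
  rw [IntermediateField.mem_bot] at h1
  obtain ⟨y, hy⟩ := h1
  rw [← hy]
  exact y.2

end MP9a7843.FL
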