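import Pool.Agent.Lib.MP_9a7843_ag_FL.Gen
import Pool.Agent.Lib.MP_9a7843_ag_FL.Disc
import Pool.Agent.Lib.MP_9a7843_ag_FL.Coord
import Pool.Agent.Lib.MP_9a7843_ag_FL.Fix

/-!
# MP_9a7843_ag, block FL: the core theorem for integral elements
-/

namespace MP9a7843.FL

open Polynomial

private lemma eval_aeval {k W S : Type*} [Field k] [Field W] [Algebra k W] (p : S → W[X]) (c : W)
    (r : MvPolynomial S k) :
    (MvPolynomial.aeval p r : W[X]).eval c = MvPolynomial.aeval (fun s => (p s).eval c) r := by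
  have h : ((aeval c : W[X] →ₐ[W] W).restrictScalars k).comp (MvPolynomial.aeval p) =
      MvPolynomial.aeval (fun s => (p s).eval c) := by
    apply MvPolynomial.algHom_ext
    intro s
    simp [coe_aeval_eq_eval]
  have := congrArg (fun f => f r) h
  simpa [coe_aeval_eq_eval] using this

private lemma comp_injective {k W S : Type*} [Field k] [Field W] [Algebra k W] (p : S → W[X])
    (c : W) (h : AlgebraicIndependent k (fun s => (p s).eval c)) :
    Function.Injective ((evalRingHom c).comp
      (MvPolynomial.aeval p : MvPolynomial S k →ₐ[k] W[X]).toRingHom) := by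
  intro x y hxy
  apply h
  have := hxy
  simp only [RingHom.comp_apply, coe_evalRingHom, AlgHom.toRingHom_eq_coe, RingHom.coe_coe] at this
  rw [eval_aeval, eval_aeval] at this
  exact this

private lemma isAlgebraic_eval {k W S : Type*} [Field k] [Field W] [Algebra k W] (p : S → W[X])
    (c : W) (Φ : (MvPolynomial S k)[X])
    (hm : Φ.Monic) (y : W)
    (hy : Φ.eval₂ ((evalRingHom c).comp
      (MvPolynomial.aeval p : MvPolynomial S k →ₐ[k] W[X]).toRingHom) y = 0) :
    IsAlgebraic (IntermediateField.adjoin k (Set.range fun s => (p s).eval c)) y := by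
  let g : MvPolynomial S k →+* IntermediateField.adjoin k (Set.range fun s => (p s).eval c) :=
    (MvPolynomial.aeval (fun s => (⟨(p s).eval c,
      IntermediateField.subset_adjoin k _ ⟨s, rfl⟩⟩ :
        IntermediateField.adjoin k (Set.range fun s => (p s).eval c))) :
      MvPolynomial S k →ₐ[k] _).toRingHom
  have hg : (algebraMap (IntermediateField.adjoin k (Set.range fun s => (p s).eval c)) W).comp g
      = (evalRingHom c).comp
      (MvPolynomial.aeval p : MvPolynomial S k →ₐ[k] W[X]).toRingHom := by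
    ext x
    · simp [g]
    · simp [g]
  refine ⟨Φ.map g, (hm.map g).ne_zero, ?_⟩
  rw [aeval_def, eval₂_map, hg]
  exact hy

/-- Statement FL15.  The core: a polynomial `θ ∈ W[X]` that is integral over `k[p s : s ∈ S]` lies
in
`k[p s : s ∈ S]`.

PROOF.  `R = MvPolynomial S k`, `ψ = aeval p : R → W[X]`, `e₀, e₁ : W[X] → W` evaluation at `0`,
`1`;
`e_c ∘ ψ = aeval (fun s => (p s).eval c)` is injective (FL11, FL12).  Take `Φ` from FL3.
(1) For `σ ∈ W ≃ₐ[k] W` fixing `𝒦` pointwise: `θ.map σ` is a root of `Φ` via `ψ` too (since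
`(ψ r).map σ = ψ r`), and `(θ.map σ).eval c = σ (θ.eval c)` for `c = 0, 1`.  If
`σ (θ.eval 1) = θ.eval 1` then
`θ.map σ = θ` by FL4 (`e = e₁`), so `σ (θ.eval 0) = θ.eval 0`.  So FL14 (`T = range (coef d p)`)
gives
`θ.eval 0 ∈ 𝒦(θ.eval 1)`.  (2) `θ.eval c` is a root of `Φ` via `e_c ∘ ψ`, so algebraic over
`k((p s)(c))`; FL13: `θ.eval 0 ∈ k((p s)(0))`, so it is `(e₀ψ g) / (e₀ψ h)`
(`IntermediateField.mem_adjoin_range_iff`/`mem_adjoin_iff`).  (3) FL2: `Φ = X - C g'`, so
`θ = ψ g'`. -/
theorem core {k W S : Type*} [Field k] [IsAlgClosed k] [CharZero k] [Field W] [IsAlgClosed W]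
    [Algebra k W] [Finite S] {d : S → ℕ} {p : S → W[X]} (hp : GenPoly k d p) (θ : W[X])
    (hθ : (MvPolynomial.aeval p : MvPolynomial S k →ₐ[k] W[X]).toRingHom.IsIntegralElem θ) :
    ∃ g : MvPolynomial S k, θ = MvPolynomial.aeval p g := by
  classical
  set ψ : MvPolynomial S k →+* W[X] :=
    (MvPolynomial.aeval p : MvPolynomial S k →ₐ[k] W[X]).toRingHom with hψ
  obtain ⟨Φ, hm, hi, hΦ⟩ := exists_irreducible ψ θ hθ
  have h0 := comp_injective p 0 (eval_zero_indep hp)
  have h1 := comp_injective p 1 (eval_one_indep hp)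
  rw [← hψ] at h0 h1
  have hr0 : Φ.eval₂ ((evalRingHom 0).comp ψ) (θ.eval 0) = 0 := by
    have := congrArg (evalRingHom (0 : W)) hΦ
    rw [hom_eval₂] at this
    simpa using this
  have hr1 : Φ.eval₂ ((evalRingHom 1).comp ψ) (θ.eval 1) = 0 := by
    have := congrArg (evalRingHom (1 : W)) hΦ
    rw [hom_eval₂] at this
    simpa using this
  have halg := hp.alg
  -- step 1
  have hmem : θ.eval 0 ∈ IntermediateField.adjoin k (Set.range (coef d p) ∪ {θ.eval 1}) := by
    apply mem_adjoin_of_fixed _ halg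
    intro σ hσ hσ1
    have hpσ : ∀ s, (p s).map (σ : W →+* W) = p s := by
      intro s
      ext n
      rw [coeff_map]
      by_cases hn : n ≤ d s
      · have : (p s).coeff n ∈ IntermediateField.adjoin k (Set.range (coef d p)) :=
          IntermediateField.subset_adjoin k _ ⟨⟨s, ⟨n, by omega⟩⟩, rfl⟩
        exact hσ _ this
      · rw [coeff_eq_zero_of_natDegree_lt (lt_of_le_of_lt (hp.deg s) (by omega))]
        simp
    have hψσ : (mapRingHom (σ : W →+* W)).comp ψ = ψ := by
      apply MvPolynomial.ringHom_ext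
      · intro c
        simp [hψ, Polynomial.algebraMap_apply]
      · intro s
        simp [hψ, hpσ]
    have hθσ : Φ.eval₂ ψ (θ.map (σ : W →+* W)) = 0 := by
      have := congrArg (mapRingHom (σ : W →+* W)) hΦ
      rw [hom_eval₂, hψσ] at this
      simpa using this
    have hev : ∀ c : W, σ c = c → (θ.map (σ : W →+* W)).eval c = σ (θ.eval c) := by
      intro c hc
      have h2 : (θ.map (σ : W →+* W)).eval ((σ : W →+* W) c) = (σ : W →+* W) (θ.eval c) :=
        eval_map_apply _ _
      have h3 : (σ : W →+* W) c = c := hc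
      rw [h3] at h2
      exact h2
    have heq : θ.map (σ : W →+* W) = θ := by
      apply eq_of_eval_eq ψ (evalRingHom 1) h1 Φ hm hi _ _ hθσ hΦ
      simp only [coe_evalRingHom]
      rw [hev 1 (map_one σ), hσ1]
    rw [← hev 0 (map_zero σ), heq]
  have hmem2 : θ.eval 0 ∈ IntermediateField.adjoin k (Set.range fun s => (p s).eval 0) := by
    apply mem_adjoin_eval_zero hp _ (θ.eval 1) _ _ hmem
    · exact isAlgebraic_eval p 0 Φ hm _ hr0
    · exact isAlgebraic_eval p 1 Φ hm _ hr1
  rw [IntermediateField.mem_adjoin_range_iff] at hmem2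
  obtain ⟨r, s, hrs⟩ := hmem2
  have hval : ∀ r : MvPolynomial S k, MvPolynomial.aeval (fun s => (p s).eval 0) r =
      ((evalRingHom 0).comp ψ) r := by
    intro r
    simp only [hψ, RingHom.comp_apply, coe_evalRingHom, AlgHom.toRingHom_eq_coe, RingHom.coe_coe]
    rw [eval_aeval]
  rw [hval, hval] at hrs
  have hlin : ∃ g' : MvPolynomial S k, Φ = X - C g' := by
    by_cases hs : s = 0
    · rw [hs, map_zero, div_zero] at hrs
      apply eq_X_sub_C _ h0 Φ hm hi 0 1 one_ne_zero
      rw [map_zero, zero_div]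
      rw [hrs] at hr0
      exact hr0
    · apply eq_X_sub_C _ h0 Φ hm hi r s hs
      rw [← hrs]
      exact hr0
  obtain ⟨g', hg'⟩ := hlin
  refine ⟨g', ?_⟩
  rw [hg'] at hΦ
  simp only [eval₂_sub, eval₂_X, eval₂_C, sub_eq_zero] at hΦ
  exact hΦ

end MP9a7843.FL
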