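import Pool.Agent.Lib.MP_9a7843_ag_FL.Gen

/-!
# MP_9a7843_ag, block FL: the generic polynomials over the polynomial ring
-/

namespace MP9a7843.FL

open Polynomial

private theorem coef_genP (k : Type*) {S : Type*} [Field k] (d : S → ℕ)
    (q : Σ s, Fin (d s + 1)) :
    coef d (genP k d) q = algebraMap (MvPolynomial (Σ s, Fin (d s + 1)) k)
      (AlgebraicClosure (FractionRing (MvPolynomial (Σ s, Fin (d s + 1)) k)))
      (MvPolynomial.X q) := by
  obtain ⟨s, i⟩ := q
  simp only [coef, genP, finsetSum_coeff, coeff_monomial]
  rw [Finset.sum_eq_single i]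
  · rw [if_pos rfl]
  · intro j _ hj
    rw [if_neg]
    intro h
    exact hj (Fin.ext h)
  · intro h
    exact absurd (Finset.mem_univ i) h

/-- Statement FL18.  The generic polynomials over the polynomial ring are generic.

PROOF.  `coeff` of `genP` at `i ≤ d s` is the variable `X ⟨s, i⟩`; the variables are algebraically
independent (`MvPolynomial.algebraicIndependent_X`, injective `algebraMap`s), and the algebraic
closure of the
fraction field is algebraic over it, the fraction field is generated by the variables. -/
theorem genPoly_genP (k : Type*) {S : Type*} [Field k] [Finite S] (d : S → ℕ) (hd : ∀ s, 1 ≤ d s) :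
    GenPoly k d (genP k d) := by
  classical
  have hcoef : coef d (genP k d) = fun q => algebraMap (MvPolynomial (Σ s, Fin (d s + 1)) k)
      (AlgebraicClosure (FractionRing (MvPolynomial (Σ s, Fin (d s + 1)) k)))
      (MvPolynomial.X q) := funext (coef_genP k d)
  have hinj : Function.Injective (algebraMap (MvPolynomial (Σ s, Fin (d s + 1)) k)
      (AlgebraicClosure (FractionRing (MvPolynomial (Σ s, Fin (d s + 1)) k)))) := by
    rw [IsScalarTower.algebraMap_eq (MvPolynomial (Σ s, Fin (d s + 1)) k)
      (FractionRing (MvPolynomial (Σ s, Fin (d s + 1)) k))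
      (AlgebraicClosure (FractionRing (MvPolynomial (Σ s, Fin (d s + 1)) k)))]
    exact (algebraMap (FractionRing (MvPolynomial (Σ s, Fin (d s + 1)) k))
      (AlgebraicClosure (FractionRing (MvPolynomial (Σ s, Fin (d s + 1)) k)))).injective.comp
      (IsFractionRing.injective _ _)
  refine ⟨hd, ?_, ?_, ?_⟩
  · intro s
    refine natDegree_sum_le_of_forall_le _ _ fun i _ => ?_
    exact (natDegree_monomial_le _).trans (Nat.lt_succ_iff.1 i.2)
  · rw [hcoef]
    exact (MvPolynomial.algebraicIndependent_X (Σ s, Fin (d s + 1)) k).map'
      (f := IsScalarTower.toAlgHom k (MvPolynomial (Σ s, Fin (d s + 1)) k)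
        (AlgebraicClosure (FractionRing (MvPolynomial (Σ s, Fin (d s + 1)) k)))) hinj
  · have hR : ∀ r : MvPolynomial (Σ s, Fin (d s + 1)) k,
        algebraMap (MvPolynomial (Σ s, Fin (d s + 1)) k)
          (AlgebraicClosure (FractionRing (MvPolynomial (Σ s, Fin (d s + 1)) k))) r ∈
          IntermediateField.adjoin k (Set.range (coef d (genP k d))) := by
      intro r
      induction r using MvPolynomial.induction_on with
      | C a =>
        have h1 : algebraMap (MvPolynomial (Σ s, Fin (d s + 1)) k)
          (AlgebraicClosure (FractionRing (MvPolynomial (Σ s, Fin (d s + 1)) k)))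
          (MvPolynomial.C a) = algebraMap k
          (AlgebraicClosure (FractionRing (MvPolynomial (Σ s, Fin (d s + 1)) k))) a := by
          rw [← MvPolynomial.algebraMap_eq, ← IsScalarTower.algebraMap_apply]
        rw [h1]
        exact IntermediateField.algebraMap_mem _ a
      | add p q hp hq =>
        rw [map_add]
        exact add_mem hp hq
      | mul_X p q hp =>
        rw [map_mul]
        refine mul_mem hp ?_
        refine IntermediateField.subset_adjoin _ _ ⟨q, ?_⟩
        rw [hcoef]
    have hF : ∀ x : FractionRing (MvPolynomial (Σ s, Fin (d s + 1)) k),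
        algebraMap (FractionRing (MvPolynomial (Σ s, Fin (d s + 1)) k))
          (AlgebraicClosure (FractionRing (MvPolynomial (Σ s, Fin (d s + 1)) k))) x ∈
          IntermediateField.adjoin k (Set.range (coef d (genP k d))) := by
      intro x
      obtain ⟨a, b, hb, rfl⟩ := IsFractionRing.div_surjective
        (A := MvPolynomial (Σ s, Fin (d s + 1)) k) x
      rw [map_div₀, ← IsScalarTower.algebraMap_apply, ← IsScalarTower.algebraMap_apply]
      exact div_mem (hR a) (hR b)
    refine ⟨fun w => ?_⟩
    have hw : IsAlgebraic (FractionRing (MvPolynomial (Σ s, Fin (d s + 1)) k)) w :=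
      Algebra.IsAlgebraic.isAlgebraic w
    let f : FractionRing (MvPolynomial (Σ s, Fin (d s + 1)) k) →+*
        IntermediateField.adjoin k (Set.range (coef d (genP k d))) :=
      (algebraMap (FractionRing (MvPolynomial (Σ s, Fin (d s + 1)) k))
          (AlgebraicClosure (FractionRing (MvPolynomial (Σ s, Fin (d s + 1)) k)))).codRestrict
        (IntermediateField.adjoin k (Set.range (coef d (genP k d)))) hF
    have h2 := hw.ringHom_of_comp_eq (f := f) (RingHom.id _) f.injective (by
      ext x
      rfl)
    exact h2

end MP9a7843.FL
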