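import Pool.Agent.Lib.MP_9a7843_ag_FL.Main
import Pool.Agent.Lib.MP_9a7843_ag_FL.Pure
import Pool.Agent.Lib.MP_9a7843_ag_FL.IndX
import Pool.Agent.Lib.MP_9a7843_ag_FL.IndT
import Pool.Agent.Lib.MP_9a7843_ag_FL.Hom
import Pool.Agent.Lib.MP_9a7843_ag_FL.GenX

/-!
# MP_9a7843_ag, block FL: exported statements
-/

namespace MP9a7843.FL

open Polynomial

private theorem isAlg_of_le {k M : Type*} [Field k] [Field M] [Algebra k M]
    {E₁ E₂ : IntermediateField k M} (h : E₁ ≤ E₂) (θ : M) (hθ : IsAlgebraic E₁ θ) :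
    IsAlgebraic E₂ θ := by
  obtain ⟨Q, hQ, hQθ⟩ := hθ
  refine ⟨Q.map (IntermediateField.inclusion h).toRingHom, ?_, ?_⟩
  · exact (Polynomial.map_ne_zero_iff (IntermediateField.inclusion h).injective).mpr hQ
  · rw [Polynomial.aeval_def, Polynomial.eval₂_map]
    exact hQθ

private theorem fin_core {k W K S ι ι' : Type*} [Field k] [IsAlgClosed k] [CharZero k] [Field W]
    [IsAlgClosed W] [Algebra k W] [Finite S] [Field K] [Algebra k K] {d : S → ℕ} {p : S → W[X]}
    (hp : GenPoly k d p) (y : ι → K) (hgen : IntermediateField.adjoin k (Set.range y) = ⊤)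
    (y' : ι → RatFunc W) (w : ι' → RatFunc W) (hind : AlgebraicIndependent k (Sum.elim y' w))
    (hmem : ∀ i, y' i ∈ IntermediateField.adjoin k (Set.range (ratP p)))
    (hsub : ∀ x ∈ Set.range (ratP p), x ∈ IntermediateField.adjoin k
      (Set.range y' ∪ Set.range w))
    (j : K →ₐ[k] RatFunc W) (hj : ∀ i, j (y i) = y' i)
    (θ : RatFunc W) (P : K[X]) (hP : P ≠ 0) (hθ : P.eval₂ (j : K →+* RatFunc W) θ = 0) :
    ∃ x, j x = θ := by
  have hr : j.fieldRange = IntermediateField.adjoin k (Set.range y') :=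
    fieldRange_eq y y' hgen j hj
  have h1 : IsAlgebraic j.fieldRange θ := by
    let r : K →+* j.fieldRange := (j : K →+* RatFunc W).codRestrict j.fieldRange
      (fun x => ⟨x, rfl⟩)
    have hrinj : Function.Injective r := r.injective
    refine ⟨P.map r, (Polynomial.map_ne_zero_iff hrinj).mpr hP, ?_⟩
    rw [Polynomial.aeval_def, Polynomial.eval₂_map]
    exact hθ
  rw [hr] at h1
  have hle : IntermediateField.adjoin k (Set.range y') ≤
      IntermediateField.adjoin k (Set.range (ratP p)) := by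
    rw [IntermediateField.adjoin_le_iff]
    rintro _ ⟨i, rfl⟩
    exact hmem i
  have h2 := mem_adjoin_ratP hp θ (isAlg_of_le hle θ h1)
  have hle2 : IntermediateField.adjoin k (Set.range (ratP p)) ≤
      IntermediateField.adjoin k (Set.range y' ∪ Set.range w) := by
    rw [IntermediateField.adjoin_le_iff]
    intro x hx
    exact hsub x hx
  have h3 := mem_adjoin_of_sumElim y' w hind θ (hle2 h2) h1
  rw [← hr] at h3
  obtain ⟨x, hx⟩ := h3
  exact ⟨x, hx⟩

private theorem ratP_elim {W S T : Type*} [Field W] (p : S → W[X]) (q : T → W[X]) :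
    ratP (Sum.elim p q) = Sum.elim (ratP p) (ratP q) := by
  funext s
  cases s <;> rfl

private theorem cub_mem {k M : Type*} [Field k] [Field M] [Algebra k M]
    (F : IntermediateField k M) (u v : Fin 10 → M) (c : Fin 4 → M) (hu : ∀ i, u i ∈ F)
    (hv : ∀ i, v i ∈ F) (hc : ∀ i, c i ∈ F) (a b e : Fin 10) : cub u v c a b e ∈ F := by
  unfold cub
  exact F.add_mem (F.add_mem (F.add_mem
    (F.mul_mem (hc _) (F.mul_mem (F.mul_mem (hu _) (hu _)) (hu _)))
    (F.mul_mem (hc _) (F.add_mem (F.add_mem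
      (F.mul_mem (F.mul_mem (hu _) (hu _)) (hv _)) (F.mul_mem (F.mul_mem (hu _) (hv _)) (hu _)))
      (F.mul_mem (F.mul_mem (hv _) (hu _)) (hu _)))))
    (F.mul_mem (hc _) (F.add_mem (F.add_mem
      (F.mul_mem (F.mul_mem (hu _) (hv _)) (hv _)) (F.mul_mem (F.mul_mem (hv _) (hu _)) (hv _)))
      (F.mul_mem (F.mul_mem (hv _) (hv _)) (hu _)))))
    (F.mul_mem (hc _) (F.mul_mem (F.mul_mem (hv _) (hv _)) (hv _)))

private theorem plu_mem {k M : Type*} [Field k] [Field M] [Algebra k M]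
    (F : IntermediateField k M) (u v : Fin 10 → M) (hu : ∀ i, u i ∈ F)
    (hv : ∀ i, v i ∈ F) (a b : Fin 10) : plu u v a b ∈ F := by
  unfold plu
  exact F.sub_mem (F.mul_mem (hu _) (hv _)) (F.mul_mem (hu _) (hv _))

private theorem zfun_mem {k M : Type*} [Field k] [Field M] [Algebra k M]
    (F : IntermediateField k M) (u v : Fin 10 → M) (c : Fin 4 → M) (hu : ∀ i, u i ∈ F)
    (hv : ∀ i, v i ∈ F) (hc : ∀ i, c i ∈ F) (I : Idx) : zfun u v c I ∈ F :=
  F.mul_mem (cub_mem F u v c hu hv hc _ _ _) (plu_mem F u v hu hv _ _)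

private theorem cellCoord_mem {k M : Type*} [Field k] [Field M] [Algebra k M]
    (F : IntermediateField k M) (z : Idx → M) (hz : ∀ I, z I ∈ F) (i : CellVar 0 1 0) :
    cellCoord z 0 1 0 i ∈ F := by
  rcases i with l | l | l
  · exact F.div_mem (hz _) (hz _)
  · exact F.div_mem (hz _) (hz _)
  · exact F.div_mem (hz _) (hz _)

private theorem tCoord_mem {k M : Type*} [Field k] [Field M] [Algebra k M]
    (F : IntermediateField k M) (u v : Fin 10 → M) (a : M) (hu : ∀ i, u i ∈ F)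
    (hv : ∀ i, v i ∈ F) (ha : a ∈ F) (i : TVar 0 1) : tCoord u v a 0 1 i ∈ F := by
  rcases i with l | l | l
  · exact F.div_mem (hu _) (hu _)
  · exact F.div_mem (plu_mem F u v hu hv _ _) (plu_mem F u v hu hv _ _)
  · have h : ∀ l : Fin 2, (![v 0 * u 0 / plu u v 0 1, a * u 0 ^ 4 / plu u v 0 1 ^ 2] : Fin 2 → M) l
        ∈ F := by
      intro l
      fin_cases l
      · exact F.div_mem (F.mul_mem (hv _) (hu _)) (plu_mem F u v hu hv _ _)
      · exact F.div_mem (F.mul_mem ha (pow_mem (hu _) _)) (pow_mem (plu_mem F u v hu hv _ _) _)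
    exact h l

private theorem indX_aux {k W : Type*} [Field k] [CharZero k] [Field W] [Algebra k W]
    (d : Fin 10 ⊕ Fin 10 ⊕ Fin 4 → ℕ) (pu pv : Fin 10 → W[X]) (pc : Fin 4 → W[X])
    (hp : GenPoly k d (Sum.elim pu (Sum.elim pv pc))) :
    AlgebraicIndependent k (Sum.elim (ratP pu) (Sum.elim (ratP pv) (ratP pc))) := by
  have h := ratP_indep hp
  rw [ratP_elim, ratP_elim] at h
  exact h

private theorem indT_aux {k W : Type*} [Field k] [Field W] [Algebra k W]
    (d : Fin 10 ⊕ Fin 10 ⊕ Unit → ℕ) (pu pv : Fin 10 → W[X]) (pa : W[X])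
    (hp : GenPoly k d (Sum.elim pu (Sum.elim pv (fun _ => pa)))) :
    AlgebraicIndependent k (Sum.elim (ratP pu) (Sum.elim (ratP pv)
      (fun _ : Unit => algebraMap W[X] (RatFunc W) pa))) := by
  have h := ratP_indep hp
  rw [ratP_elim, ratP_elim] at h
  exact h

/-- EXPORT FLX.  `K` = function field of `X`; `pu, pv, pc` generic polynomials of degrees `≥ 1`;
`j : K → W(X)` the point of `X` with coordinates `zfun pu pv pc`.  Every element of `W(X)` that is
algebraic over `j(K)` lies in `j(K)`.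

PROOF.  `j(K) = k(y')`, `y' = cellCoord (zfun U V C) 0 1 0` (FL23).  `θ` algebraic over `k(y') ⊂
k(ratP)` lies in
`k(ratP) = k(U, V, C) ⊂ k(y', extraX)` by FL17, so in `k(y')` by FL19, FL20 (independence FL16). -/
theorem flX {k W K : Type*} [Field k] [IsAlgClosed k] [CharZero k] [Field W] [IsAlgClosed W]
    [Algebra k W] [Field K] [Algebra k K] (z : Idx → K) (hz : IsGenX k z)
    (d : Fin 10 ⊕ Fin 10 ⊕ Fin 4 → ℕ) (pu pv : Fin 10 → W[X]) (pc : Fin 4 → W[X])
    (hp : GenPoly k d (Sum.elim pu (Sum.elim pv pc))) (j : K →ₐ[k] RatFunc W)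
    (hj : ∀ i, j (cellCoord z 0 1 0 i) =
      cellCoord (zfun (ratP pu) (ratP pv) (ratP pc)) 0 1 0 i)
    (θ : RatFunc W) (P : K[X]) (hP : P ≠ 0) (hθ : P.eval₂ (j : K →+* RatFunc W) θ = 0) :
    ∃ x, j x = θ := by
  have hind := indX_aux d pu pv pc hp
  obtain ⟨h1, h2⟩ := indepX _ _ _ hind
  have hr : ratP (Sum.elim pu (Sum.elim pv pc)) =
      Sum.elim (ratP pu) (Sum.elim (ratP pv) (ratP pc)) := by rw [ratP_elim, ratP_elim]
  refine fin_core hp (cellCoord z 0 1 0) hz.gen _ _ h1 ?_ ?_ j hj θ P hP hθ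
  · intro i
    apply cellCoord_mem
    intro I
    rw [hr]
    apply zfun_mem
    · intro i
      exact IntermediateField.subset_adjoin _ _ ⟨Sum.inl i, rfl⟩
    · intro i
      exact IntermediateField.subset_adjoin _ _ ⟨Sum.inr (Sum.inl i), rfl⟩
    · intro i
      exact IntermediateField.subset_adjoin _ _ ⟨Sum.inr (Sum.inr i), rfl⟩
  · intro x hx
    rw [hr] at hx
    exact h2 x hx

/-- EXPORT FLX0: existence of `j`. -/
theorem flX_exists {k W K : Type*} [Field k] [CharZero k] [Field W]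
    [Algebra k W] [Field K] [Algebra k K] (z : Idx → K) (hz : IsGenX k z)
    (d : Fin 10 ⊕ Fin 10 ⊕ Fin 4 → ℕ) (pu pv : Fin 10 → W[X]) (pc : Fin 4 → W[X])
    (hp : GenPoly k d (Sum.elim pu (Sum.elim pv pc))) :
    ∃ j : K →ₐ[k] RatFunc W, ∀ i, j (cellCoord z 0 1 0 i) =
      cellCoord (zfun (ratP pu) (ratP pv) (ratP pc)) 0 1 0 i := by
  have hind := indX_aux d pu pv pc hp
  obtain ⟨h1, _⟩ := indepX _ _ _ hind
  have h3 : AlgebraicIndependent k
      (cellCoord (zfun (ratP pu) (ratP pv) (ratP pc)) 0 1 0) := by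
    have := h1.comp Sum.inl Sum.inl_injective
    exact this
  obtain ⟨j, hj, _⟩ := exists_algHom _ _ hz.indep h3 hz.gen
  exact ⟨j, hj⟩

/-- EXPORT FLT.  The same for `T`: `K` = function field of `T`. -/
theorem flT {k W K : Type*} [Field k] [IsAlgClosed k] [CharZero k] [Field W] [IsAlgClosed W]
    [Algebra k W] [Field K] [Algebra k K] (z : Idx → K) (u v : Fin 10 → K) (a0 : K)
    (hz : IsGenT k z u v a0)
    (d : Fin 10 ⊕ Fin 10 ⊕ Unit → ℕ) (pu pv : Fin 10 → W[X]) (pa : W[X])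
    (hp : GenPoly k d (Sum.elim pu (Sum.elim pv (fun _ => pa)))) (j : K →ₐ[k] RatFunc W)
    (hj : ∀ i, j (tCoord u v a0 0 1 i) =
      tCoord (ratP pu) (ratP pv) (algebraMap W[X] (RatFunc W) pa) 0 1 i)
    (θ : RatFunc W) (P : K[X]) (hP : P ≠ 0) (hθ : P.eval₂ (j : K →+* RatFunc W) θ = 0) :
    ∃ x, j x = θ := by
  have hind := indT_aux d pu pv pa hp
  obtain ⟨h1, h2⟩ := indepT _ _ _ hind
  have hr : ratP (Sum.elim pu (Sum.elim pv (fun _ : Unit => pa))) =
      Sum.elim (ratP pu) (Sum.elim (ratP pv)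
        (fun _ : Unit => algebraMap W[X] (RatFunc W) pa)) := by
    rw [ratP_elim, ratP_elim]
    rfl
  refine fin_core hp (tCoord u v a0 0 1) hz.gen _ _ h1 ?_ ?_ j hj θ P hP hθ
  · intro i
    rw [hr]
    apply tCoord_mem
    · intro i
      exact IntermediateField.subset_adjoin _ _ ⟨Sum.inl i, rfl⟩
    · intro i
      exact IntermediateField.subset_adjoin _ _ ⟨Sum.inr (Sum.inl i), rfl⟩
    · exact IntermediateField.subset_adjoin _ _ ⟨Sum.inr (Sum.inr ()), rfl⟩
  · intro x hx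
    rw [hr] at hx
    exact h2 x hx

/-- EXPORT FLT0: existence of `j`. -/
theorem flT_exists {k W K : Type*} [Field k] [CharZero k] [Field W]
    [Algebra k W] [Field K] [Algebra k K] (z : Idx → K) (u v : Fin 10 → K) (a0 : K)
    (hz : IsGenT k z u v a0)
    (d : Fin 10 ⊕ Fin 10 ⊕ Unit → ℕ) (pu pv : Fin 10 → W[X]) (pa : W[X])
    (hp : GenPoly k d (Sum.elim pu (Sum.elim pv (fun _ => pa)))) :
    ∃ j : K →ₐ[k] RatFunc W, ∀ i, j (tCoord u v a0 0 1 i) =
      tCoord (ratP pu) (ratP pv) (algebraMap W[X] (RatFunc W) pa) 0 1 i := by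
  have hind := indT_aux d pu pv pa hp
  obtain ⟨h1, _⟩ := indepT _ _ _ hind
  have h3 : AlgebraicIndependent k
      (tCoord (ratP pu) (ratP pv) (algebraMap W[X] (RatFunc W) pa) 0 1) := by
    have := h1.comp Sum.inl Sum.inl_injective
    exact this
  obtain ⟨j, hj, _⟩ := exists_algHom _ _ hz.indep h3 hz.gen
  exact ⟨j, hj⟩

end MP9a7843.FL
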