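import Mathlib

/-!
# MP_9a7843_ag, block FL (field lemma): generic polynomials

`W` is an algebraically closed field over `k`; `p s ∈ W[X]`, `s ∈ S` (finite), are polynomials of
degree at most `d s`, `d s ≥ 1`, all of whose coefficients are algebraically independent over `k`,
and `W` is algebraic over the field generated by all these coefficients.
-/

namespace MP9a7843.FL

open Polynomial

section

variable {W S : Type*} [Field W]

/-- All coefficients of the polynomials `p s`. -/
def coef (d : S → ℕ) (p : S → W[X]) : (Σ s, Fin (d s + 1)) → W := fun q => (p q.1).coeff q.2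

/-- The coefficients of the polynomials `p s`, with the coefficient of `X` replaced by the value
at `1`.  The entry `(s, 0)` is the value of `p s` at `0`. -/
noncomputable def coord (d : S → ℕ) (p : S → W[X]) : (Σ s, Fin (d s + 1)) → W :=
  fun q => if (q.2 : ℕ) = 1 then (p q.1).eval 1 else (p q.1).coeff q.2

end

/-- `p` is a family of generic polynomials of degrees `d s ≥ 1` over `k`, and `W` is an algebraic
extension of the field generated by their coefficients. -/
structure GenPoly (k : Type*) {W S : Type*} [Field k] [Field W] [Algebra k W] (d : S → ℕ)
    (p : S → W[X]) : Prop where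
  pos : ∀ s, 1 ≤ d s
  deg : ∀ s, (p s).natDegree ≤ d s
  indep : AlgebraicIndependent k (coef d p)
  alg : Algebra.IsAlgebraic (IntermediateField.adjoin k (Set.range (coef d p))) W

/-- The generic polynomials over the polynomial ring. -/
noncomputable def genP (k : Type*) {S : Type*} [Field k] (d : S → ℕ) (s : S) :
    (AlgebraicClosure (FractionRing (MvPolynomial (Σ s, Fin (d s + 1)) k)))[X] :=
  ∑ i : Fin (d s + 1), monomial (i : ℕ)
    (algebraMap (MvPolynomial (Σ s, Fin (d s + 1)) k)
      (AlgebraicClosure (FractionRing (MvPolynomial (Σ s, Fin (d s + 1)) k)))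
      (MvPolynomial.X ⟨s, i⟩))

end MP9a7843.FL
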