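import Pool.Agent.Lib.MP_9a7843_ag_FL.Core

/-!
# MP_9a7843_ag, block FL: the field lemma
-/

namespace MP9a7843.FL

open Polynomial

/-- The generic polynomials as elements of `W(X)`. -/
noncomputable def ratP {W S : Type*} [Field W] (p : S → W[X]) (s : S) : RatFunc W :=
  algebraMap W[X] (RatFunc W) (p s)

private theorem main_eval {k W S : Type*} [Field k] [Field W] [Algebra k W] (p : S → W[X])
    (r : MvPolynomial S k) :
    (MvPolynomial.aeval p r : W[X]).eval 0 = MvPolynomial.aeval (fun s => (p s).eval 0) r := by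
  have h : ((aeval (0 : W) : W[X] →ₐ[W] W).restrictScalars k).comp (MvPolynomial.aeval p) =
      MvPolynomial.aeval (fun s => (p s).eval 0) := by
    apply MvPolynomial.algHom_ext
    intro s
    simp [coe_aeval_eq_eval]
  have := congrArg (fun f => f r) h
  simpa [coe_aeval_eq_eval] using this

private theorem main_rat {k W S : Type*} [Field k] [Field W] [Algebra k W] (p : S → W[X])
    (r : MvPolynomial S k) :
    (MvPolynomial.aeval (ratP p) r : RatFunc W) =
      algebraMap W[X] (RatFunc W) (MvPolynomial.aeval p r) := by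
  have h : (IsScalarTower.toAlgHom k W[X] (RatFunc W)).comp (MvPolynomial.aeval p) =
      MvPolynomial.aeval (ratP p) := by
    apply MvPolynomial.algHom_ext
    intro s
    simp [ratP]
  exact (congrArg (fun f => f r) h).symm

open scoped IntermediateField.algebraAdjoinAdjoin in
private theorem main_alg {k K : Type*} [Field k] [Field K] [Algebra k K] (A : Set K) (θ : K)
    (hθ : IsAlgebraic (IntermediateField.adjoin k A) θ) : IsAlgebraic (Algebra.adjoin k A) θ :=
  (IsFractionRing.isAlgebraic_iff (Algebra.adjoin k A)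
    (IntermediateField.adjoin k A) K).mpr hθ

/-- Statement FL16.  The generic polynomials are algebraically independent.

PROOF.  Evaluate at `0`: `AlgebraicIndependent.of_comp`-type argument with
`MvPolynomial.aeval p : _ → W[X]`, `(aeval p G).eval 0 = aeval (fun s => (p s).eval 0) G`, FL11. -/
theorem ratP_indep {k W S : Type*} [Field k] [Field W] [Algebra k W] [Finite S] {d : S → ℕ}
    {p : S → W[X]} (hp : GenPoly k d p) : AlgebraicIndependent k (ratP p) := by
  intro a b hab
  rw [main_rat, main_rat] at hab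
  have h1 := IsFractionRing.injective W[X] (RatFunc W) hab
  apply eval_zero_indep hp
  rw [← main_eval, ← main_eval, h1]

/-- Statement FL17.  MAIN THEOREM: every element of `W(X)` that is algebraic over the field
generated by the generic polynomials lies in this field.

PROOF.  Some non zero `G(p)`, `G ∈ MvPolynomial S k`, makes `θ' = G(p) θ` integral over `k[p]`,
hence over
`W[X]`, hence `θ' ∈ W[X]` (integrally closed), and `θ'` is integral over `k[p]` (as element of
`W[X]`, `algebraMap W[X] (RatFunc W)` being injective): FL15. -/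
theorem mem_adjoin_ratP {k W S : Type*} [Field k] [IsAlgClosed k] [CharZero k] [Field W]
    [IsAlgClosed W] [Algebra k W] [Finite S] {d : S → ℕ} {p : S → W[X]} (hp : GenPoly k d p)
    (θ : RatFunc W) (hθ : IsAlgebraic (IntermediateField.adjoin k (Set.range (ratP p))) θ) :
    θ ∈ IntermediateField.adjoin k (Set.range (ratP p)) := by
  have halg : IsAlgebraic (Algebra.adjoin k (Set.range (ratP p))) θ :=
    main_alg _ θ hθ
  obtain ⟨y, hy0, hint⟩ := halg.exists_integral_multiple
  obtain ⟨Q, hQm, hQ⟩ := hint
  have hyr : ∀ x : RatFunc W, x ∈ Algebra.adjoin k (Set.range (ratP p)) →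
      ∃ G : MvPolynomial S k, MvPolynomial.aeval (ratP p) G = x := by
    intro x hx
    rw [Algebra.adjoin_range_eq_range_aeval] at hx
    exact hx
  obtain ⟨G, hG⟩ := hyr y y.2
  -- lift the polynomial
  let f : MvPolynomial S k →+* Algebra.adjoin k (Set.range (ratP p)) :=
    ((MvPolynomial.aeval (ratP p)).codRestrict (Algebra.adjoin k (Set.range (ratP p)))
      (fun r => by
        rw [Algebra.adjoin_range_eq_range_aeval]
        exact ⟨r, rfl⟩)).toRingHom
  have hf : Function.Surjective f := by
    rintro ⟨x, hx⟩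
    have hx' := hx
    rw [Algebra.adjoin_range_eq_range_aeval] at hx'
    obtain ⟨r, hr⟩ := hx'
    exact ⟨r, Subtype.ext hr⟩
  have hfv : ∀ r, ((f r : Algebra.adjoin k (Set.range (ratP p))) : RatFunc W) =
      MvPolynomial.aeval (ratP p) r := fun r => rfl
  have hlift : Q ∈ Polynomial.lifts f := by
    rw [Polynomial.lifts_iff_coeff_lifts]
    intro n
    exact hf (Q.coeff n)
  obtain ⟨Φ, hΦ, _, hΦm⟩ := Polynomial.lifts_and_degree_eq_and_monic hlift hQm
  let ψ : MvPolynomial S k →+* W[X] :=
    (MvPolynomial.aeval p : MvPolynomial S k →ₐ[k] W[X]).toRingHom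
  have hcomp : (algebraMap (Algebra.adjoin k (Set.range (ratP p))) (RatFunc W)).comp f =
      (algebraMap W[X] (RatFunc W)).comp ψ := by
    apply RingHom.ext
    intro r
    exact main_rat p r
  have h1 : Φ.eval₂ ((algebraMap W[X] (RatFunc W)).comp ψ) (y • θ) = 0 := by
    rw [← hcomp, ← Polynomial.eval₂_map, hΦ]
    exact hQ
  have h2 : IsIntegral W[X] (y • θ) := by
    refine ⟨Φ.map ψ, hΦm.map ψ, ?_⟩
    rw [Polynomial.eval₂_map]
    exact h1
  obtain ⟨q, hq⟩ := IsIntegrallyClosed.isIntegral_iff.mp h2
  have h3 : Φ.eval₂ ψ q = 0 := by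
    apply IsFractionRing.injective W[X] (RatFunc W)
    rw [map_zero, Polynomial.hom_eval₂, hq]
    exact h1
  obtain ⟨g, hg⟩ := core hp q ⟨Φ, hΦm, h3⟩
  rw [IntermediateField.mem_adjoin_range_iff]
  refine ⟨g, G, ?_⟩
  have hG' : MvPolynomial.aeval (ratP p) G = (y : RatFunc W) := hG
  have hyne : (y : RatFunc W) ≠ 0 := fun h => hy0 (Subtype.ext h)
  have hyθ : y • θ = (y : RatFunc W) * θ := rfl
  rw [main_rat p g, ← hg, hq, hG', hyθ, mul_div_cancel_left₀ _ hyne]

end MP9a7843.FL
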