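import Mathlib

/-!
# MP_9a7843_ag, block FL: specialisation lemma
-/

namespace MP9a7843.FL

open MvPolynomial

open scoped IntermediateField.algebraAdjoinAdjoin in
private theorem isAlgebraic_algebra_adjoin {k W I : Type*} [Field k] [Field W] [Algebra k W]
    (b : I → W) (α : W) (h2 : IsAlgebraic (IntermediateField.adjoin k (Set.range b)) α) :
    IsAlgebraic (Algebra.adjoin k (Set.range b)) α :=
  (IsFractionRing.isAlgebraic_iff (Algebra.adjoin k (Set.range b))
    (IntermediateField.adjoin k (Set.range b)) W).2 h2

/-- An element of the field of fractions of a normal domain that satisfies an integral equation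
comes from the domain. -/
private theorem exists_eq_of_integral {Q W : Type*} [CommRing Q] [IsDomain Q]
    [IsIntegrallyClosed Q] [Field W] (ψ : Q →+* W) (hψ : Function.Injective ψ) (r s : Q)
    (β : W) (hβ : β = ψ r / ψ s) (q : Polynomial Q) (hq : q.Monic) (h0 : q.eval₂ ψ β = 0) :
    ∃ A : Q, β = ψ A := by
  set K := FractionRing Q
  set Ψ : K →+* W := IsFractionRing.lift hψ with hΨ
  have hΨa : ∀ x : Q, Ψ (algebraMap Q K x) = ψ x := fun x => IsFractionRing.lift_algebraMap hψ x
  have hβ' : β = Ψ (algebraMap Q K r / algebraMap Q K s) := by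
    rw [map_div₀, hΨa, hΨa, hβ]
  have hint : IsIntegral Q (algebraMap Q K r / algebraMap Q K s) := by
    refine ⟨q, hq, ?_⟩
    apply Ψ.injective
    rw [Polynomial.hom_eval₂, map_zero, ← hβ']
    have : Ψ.comp (algebraMap Q K) = ψ := RingHom.ext hΨa
    rw [this]
    exact h0
  obtain ⟨A, hA⟩ := IsIntegrallyClosed.isIntegral_iff.1 hint
  exact ⟨A, by rw [hβ', ← hA, hΨa]⟩

/-- Statement FL5.  A quotient of polynomials over `L` that is algebraic over `k(b)` becomes a
polynomial after multiplication with a non zero element of `k[b]`.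

PROOF.  (1) `α` algebraic over `k(b)`, so over `k[b]`: some non zero `c ∈ k[b]`, `c = aeval b G`,
makes `c α` integral
over `k[b]` (`IsAlgebraic.exists_integral_multiple` or `exists_integral_multiple`).  (2) `c α` is
integral over
`L[b] ≅ MvPolynomial I L` (via `hb.aevalEquiv`), which is a UFD, so integrally closed, and lies in
its fraction
field `L(b)`: so `c α = aeval b A`.  The integral equation of `c α` over `k[b]` gives an equation
of `A` over `MvPolynomial I k` since `aeval b : MvPolynomial I L → W` is injective. -/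
theorem exists_integral_mul {k W I : Type*} [Field k] [Field W] [Algebra k W]
    (L : IntermediateField k W) (b : I → W) (hb : AlgebraicIndependent L b) (α : W)
    (h1 : α ∈ IntermediateField.adjoin L (Set.range b))
    (h2 : IsAlgebraic (IntermediateField.adjoin k (Set.range b)) α) :
    ∃ (G : MvPolynomial I k) (A : MvPolynomial I L), G ≠ 0 ∧
      aeval b G * α = aeval b A ∧
      (MvPolynomial.map (algebraMap k L)).IsIntegralElem A := by
  classical
  have hφψ : ∀ p : MvPolynomial I k,
      aeval b p = aeval b (MvPolynomial.map (algebraMap k L) p) := fun p =>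
    (aeval_map_algebraMap L b p).symm
  have hψ : Function.Injective (aeval b : MvPolynomial I L →ₐ[L] W) := hb
  obtain ⟨r, s, hrs⟩ := (IntermediateField.mem_adjoin_range_iff L b α).1 h1
  have halg := isAlgebraic_algebra_adjoin b α h2
  obtain ⟨c, hc0, hcint⟩ := halg.exists_integral_multiple
  have hmem : ∀ p : MvPolynomial I k,
      (aeval b : MvPolynomial I k →ₐ[k] W) p ∈ Algebra.adjoin k (Set.range b) := by
    intro p
    rw [Algebra.adjoin_range_eq_range_aeval]
    exact ⟨p, rfl⟩
  set π : MvPolynomial I k →ₐ[k] Algebra.adjoin k (Set.range b) :=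
    (aeval b : MvPolynomial I k →ₐ[k] W).codRestrict _ hmem with hπ
  have hπs : Function.Surjective π := by
    rintro ⟨x, hx⟩
    rw [Algebra.adjoin_range_eq_range_aeval] at hx
    obtain ⟨p, hp⟩ := hx
    exact ⟨p, Subtype.ext hp⟩
  obtain ⟨G, hG⟩ := hπs c
  have hGc : (aeval b : MvPolynomial I k →ₐ[k] W) G = c := congrArg Subtype.val hG
  have hG0 : G ≠ 0 := by
    rintro rfl
    apply hc0
    rw [← hG, map_zero]
  obtain ⟨q, hqm, hq⟩ := hcint
  obtain ⟨q', hq', -, hqm'⟩ := Polynomial.lifts_and_natDegree_eq_and_monic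
    (f := (π : MvPolynomial I k →+* Algebra.adjoin k (Set.range b)))
    ((Polynomial.lifts_iff_coeff_lifts _).2 fun n => hπs _) hqm
  have heq : q'.eval₂ ((aeval b : MvPolynomial I k →ₐ[k] W) : MvPolynomial I k →+* W)
      (aeval b G * α) = 0 := by
    rw [← hq', Polynomial.eval₂_map] at hq
    rw [hGc]
    exact hq
  have hcomp : ((aeval b : MvPolynomial I k →ₐ[k] W) : MvPolynomial I k →+* W)
      = ((aeval b : MvPolynomial I L →ₐ[L] W) : MvPolynomial I L →+* W).comp
        (MvPolynomial.map (algebraMap k L)) := RingHom.ext hφψ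
  have hUF : UniqueFactorizationMonoid (MvPolynomial I L) := inferInstance
  have hIC : IsIntegrallyClosed (MvPolynomial I L) :=
    UniqueFactorizationMonoid.instIsIntegrallyClosed
  obtain ⟨A, hA⟩ := exists_eq_of_integral
    ((aeval b : MvPolynomial I L →ₐ[L] W) : MvPolynomial I L →+* W) hψ
    (MvPolynomial.map (algebraMap k L) G * r) s (aeval b G * α)
    (by
      rw [map_mul, hrs, hφψ G, mul_div_assoc]
      rfl)
    (q'.map (MvPolynomial.map (algebraMap k L))) (hqm'.map _)
    (by rw [Polynomial.eval₂_map, ← hcomp]; exact heq)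
  refine ⟨G, A, hG0, hA, q', hqm', ?_⟩
  apply hψ
  have h3 := Polynomial.hom_eval₂ q' (MvPolynomial.map (algebraMap k L))
    ((aeval b : MvPolynomial I L →ₐ[L] W) : MvPolynomial I L →+* W) A
  rw [← hcomp, ← hA, heq] at h3
  rw [map_zero]
  exact h3

attribute [local instance] MvPolynomial.algebraMvPolynomial in
private theorem isIntegral_coeff {k L I : Type*} [Field k] [Field L] [Algebra k L]
    {A : MvPolynomial I L} (h : (MvPolynomial.map (algebraMap k L)).IsIntegralElem A)
    (n : I →₀ ℕ) : IsIntegral k (A.coeff n) :=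
  MvPolynomial.isIntegral_iff_isIntegral_coeff.1 h n

/-- Statement FL6.  If `k` is algebraically closed then `k(b)` is algebraically closed in `L(b)`.

PROOF.  With FL5: by `MvPolynomial.isIntegral_iff_isIntegral_coeff` (local instance
`MvPolynomial.algebraMvPolynomial`) all coefficients of `A` are integral over `k`, so in `k`
(`IsAlgClosed.algebraMap_surjective_of_isIntegral` etc.): `A = map A'`, and
`α = aeval b A' / aeval b G ∈ k(b)` (`aeval b G ≠ 0` since `b` is algebraically independent over
`L ⊃ k`). -/
theorem mem_adjoin_of_isAlgebraic {k W I : Type*} [Field k] [IsAlgClosed k] [Field W] [Algebra k W]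
    (L : IntermediateField k W) (b : I → W) (hb : AlgebraicIndependent L b) (α : W)
    (h1 : α ∈ IntermediateField.adjoin L (Set.range b))
    (h2 : IsAlgebraic (IntermediateField.adjoin k (Set.range b)) α) :
    α ∈ IntermediateField.adjoin k (Set.range b) := by
  obtain ⟨G, A, hG0, hGA, hint⟩ := exists_integral_mul L b hb α h1 h2
  have hcoef : ∀ n, ∃ y : k, algebraMap k L y = A.coeff n := by
    intro n
    have h3 : IsIntegral k (A.coeff n) := isIntegral_coeff hint n
    exact minpoly.mem_range_of_degree_eq_one k (A.coeff n)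
      (IsAlgClosed.degree_eq_one_of_irreducible k (minpoly.irreducible h3))
  obtain ⟨A', hA'⟩ : ∃ A' : MvPolynomial I k, MvPolynomial.map (algebraMap k L) A' = A := by
    have h4 : A ∈ Set.range (MvPolynomial.map (algebraMap k L) : MvPolynomial I k →+* _) := by
      rw [MvPolynomial.mem_range_map_iff_coeffs_subset]
      intro x hx
      obtain ⟨n, -, rfl⟩ := MvPolynomial.mem_coeffs_iff.1 hx
      exact hcoef n
    exact h4
  have hφψ : ∀ p : MvPolynomial I k,
      aeval b p = aeval b (MvPolynomial.map (algebraMap k L) p) := fun p =>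
    (aeval_map_algebraMap L b p).symm
  have hG1 : (aeval b : MvPolynomial I k →ₐ[k] W) G ≠ 0 := by
    intro h5
    rw [hφψ] at h5
    have h6 : MvPolynomial.map (algebraMap k L) G = 0 := hb (by rw [h5, map_zero])
    exact hG0 (MvPolynomial.map_injective _ (algebraMap k L).injective (by rw [h6, map_zero]))
  rw [IntermediateField.mem_adjoin_range_iff]
  refine ⟨A', G, ?_⟩
  rw [eq_div_iff hG1, mul_comm, hGA, ← hA', hφψ]

end MP9a7843.FL
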